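import Pool.Agent.L5helper86.EA.Iso

/-!
# Alternating sums over a box

The alternating sum of a spin configuration of the box is at most one plus the number of its broken
bonds.
-/

set_option autoImplicit false

open Finset

namespace Pool.Agent.L5helper86.EA

open Pool.Agent.TH761.EA Pool.Agent.TH761.EB

variable {m : ℕ}

/-- alternating sign on the interval -/
noncomputable def sg (t : Tt m) : ℝ := (-1) ^ ((t : ℤ) + m).toNat

/-- alternating sign on the box -/
noncomputable def se {k : ℕ} (y : Bx k m) : ℝ := ∏ i, sg (y i)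

/-- enumeration of the interval -/
def tt (m : ℕ) (j : ℕ) : Tt m := ⟨min (m : ℤ) (-(m : ℤ) + j), by
  rw [Finset.mem_Icc]; constructor <;> omega⟩

lemma sum_tt (F : Tt m → ℝ) : ∑ t, F t = ∑ j ∈ range (2 * m + 1), F (tt m j) := by
  symm
  refine Finset.sum_nbij' (fun j => tt m j) (fun t => ((t : ℤ) + m).toNat) ?_ ?_ ?_ ?_ ?_
  · intro j _; exact Finset.mem_univ _
  · intro t _
    have := Finset.mem_Icc.1 t.2
    rw [Finset.mem_range]; omega
  · intro j hj
    rw [Finset.mem_range] at hj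
    simp only [tt]
    omega
  · intro t _
    have := Finset.mem_Icc.1 t.2
    apply Subtype.ext
    simp only [tt]
    omega
  · intro j _; rfl

lemma alt_range (G : ℕ → ℝ) (n : ℕ) : ∑ j ∈ range (2 * n + 1), (-1 : ℝ) ^ j * G j =
    (G 0 + G (2 * n)) / 2 + (1 / 2) * ∑ j ∈ range (2 * n), (-1 : ℝ) ^ j * (G j - G (j + 1)) := by
  induction n with
  | zero => simp
  | succ n ih =>
    have h1 : 2 * (n + 1) + 1 = (2 * n + 1) + 1 + 1 := by ring
    have h2 : 2 * (n + 1) = (2 * n) + 1 + 1 := by ring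
    rw [h1, Finset.sum_range_succ, Finset.sum_range_succ, ih, h2, Finset.sum_range_succ,
      Finset.sum_range_succ]
    have h3 : (-1 : ℝ) ^ (2 * n) = 1 := by rw [pow_mul]; norm_num
    have h4 : (-1 : ℝ) ^ (2 * n + 1) = -1 := by rw [pow_succ, h3]; norm_num
    have h5 : (-1 : ℝ) ^ (2 * n + 1 + 1) = 1 := by rw [pow_succ, h4]; norm_num
    rw [h3, h4, h5]
    ring

lemma nx_tt {j : ℕ} (hj : j < 2 * m) : nx (tt m j) = tt m (j + 1) := by
  apply Subtype.ext
  simp only [nx, tt]
  push_cast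
  omega

lemma nx_top : nx (tt m (2 * m)) = tt m (2 * m) := by
  apply Subtype.ext
  simp only [nx, tt]
  push_cast
  omega

lemma sg_tt {j : ℕ} (hj : j ≤ 2 * m) : sg (tt m j) = (-1) ^ j := by
  unfold sg
  congr 1
  simp only [tt]
  omega

lemma abs_sg (t : Tt m) : |sg t| = 1 := by
  unfold sg
  rw [abs_pow, abs_neg, abs_one, one_pow]

lemma abs_se {k : ℕ} (y : Bx k m) : |se y| = 1 := by
  unfold se
  rw [Finset.abs_prod]
  exact Finset.prod_eq_one fun i _ => abs_sg _

lemma se_pm {k : ℕ} (y : Bx k m) : se y = 1 ∨ se y = -1 := by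
  have := abs_se y
  exact eq_or_eq_neg_of_abs_eq this

/-- summation by parts -/
lemma alt_one (g : Tt m → ℝ) : ∑ t, sg t * g t = (g (tt m 0) + g (tt m (2 * m))) / 2 +
    (1 / 2) * ∑ t, sg t * (g t - g (nx t)) := by
  rw [sum_tt, sum_tt]
  have h1 : ∑ j ∈ range (2 * m + 1), sg (tt m j) * g (tt m j) =
      ∑ j ∈ range (2 * m + 1), (-1 : ℝ) ^ j * g (tt m j) := by
    refine Finset.sum_congr rfl fun j hj => ?_
    rw [Finset.mem_range] at hj
    rw [sg_tt (by omega)]
  rw [h1, alt_range (fun j => g (tt m j)), Finset.sum_range_succ, nx_top, sub_self, mul_zero,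
    add_zero]
  congr 2
  refine Finset.sum_congr rfl fun j hj => ?_
  rw [Finset.mem_range] at hj
  rw [sg_tt (by omega), nx_tt hj]

lemma sum_cons {k : ℕ} (F : Bx (k + 1) m → ℝ) :
    ∑ y : Bx (k + 1) m, F y = ∑ t : Tt m, ∑ y : Bx k m, F (Fin.cons t y) := by
  rw [← Fintype.sum_prod_type' (f := fun (t : Tt m) (y : Bx k m) => F (Fin.cons t y))]
  exact (Equiv.sum_comp (Fin.consEquiv fun _ : Fin (k + 1) => Tt m) F).symm

lemma se_cons {k : ℕ} (t : Tt m) (y : Bx k m) :
    se (Fin.cons t y : Bx (k + 1) m) = sg t * se y := by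
  unfold se
  rw [Fin.prod_univ_succ]
  simp

lemma Fl_zero {k : ℕ} (p : Bx (k + 1) m → ℝ) (t : Tt m) (y : Bx k m) :
    Fl p 0 (Fin.cons t y : Bx (k + 1) m) =
      |p (Fin.cons t y) - p (Fin.cons (nx t) y)| := by
  unfold Fl
  rw [Fin.cons_zero, Fin.update_cons_zero]

lemma Fl_succ {k : ℕ} (p : Bx (k + 1) m → ℝ) (i : Fin k) (t : Tt m) (y : Bx k m) :
    Fl p i.succ (Fin.cons t y : Bx (k + 1) m) = Fl (fun y => p (Fin.cons t y)) i y := by
  unfold Fl
  rw [Fin.cons_succ, ← Fin.cons_update]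

theorem alt_box (k : ℕ) : ∀ p : Bx k m → ℝ, (∀ y, |p y| ≤ 1) →
    |∑ y, se y * p y| ≤ 1 + (1 / 2) * ∑ i : Fin k, ∑ y, Fl p i y := by
  induction k with
  | zero =>
    intro p hp
    have h1 : ∑ y : Bx 0 m, se y * p y = p default := by
      rw [Fintype.sum_unique]
      simp [se]
    rw [h1]
    simp only [Finset.univ_eq_empty, Finset.sum_empty, mul_zero, add_zero]
    exact hp _
  | succ k ih =>
    intro p hp
    have e1 : ∑ y : Bx (k + 1) m, se y * p y =
        ∑ y : Bx k m, se y * ∑ t : Tt m, sg t * p (Fin.cons t y) := by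
      rw [sum_cons, Finset.sum_comm]
      refine Finset.sum_congr rfl fun y _ => ?_
      rw [Finset.mul_sum]
      refine Finset.sum_congr rfl fun t _ => ?_
      rw [se_cons]; ring
    have e2 : ∑ y : Bx k m, se y * ∑ t : Tt m, sg t * p (Fin.cons t y) =
        (1 / 2) * (∑ y : Bx k m, se y * p (Fin.cons (tt m 0) y)) +
        (1 / 2) * (∑ y : Bx k m, se y * p (Fin.cons (tt m (2 * m)) y)) +
        (1 / 2) * ∑ y : Bx k m, se y * ∑ t : Tt m, sg t *
          (p (Fin.cons t y) - p (Fin.cons (nx t) y)) := by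
      rw [Finset.mul_sum, Finset.mul_sum, Finset.mul_sum, ← Finset.sum_add_distrib,
        ← Finset.sum_add_distrib]
      refine Finset.sum_congr rfl fun y _ => ?_
      rw [alt_one (fun t => p (Fin.cons t y))]
      ring
    set R : Tt m → ℝ := fun t => ∑ i : Fin k, ∑ y, Fl (fun y => p (Fin.cons t y)) i y with hR
    have hR0 : ∀ t, 0 ≤ R t := fun t => Finset.sum_nonneg fun i _ => Finset.sum_nonneg fun y _ =>
      abs_nonneg _
    have hRle : ∀ t, R t ≤ ∑ u, R u := fun t =>
      Finset.single_le_sum (fun u _ => hR0 u) (Finset.mem_univ t)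
    have b1 := ih (fun y => p (Fin.cons (tt m 0) y)) (fun y => hp _)
    have b2 := ih (fun y => p (Fin.cons (tt m (2 * m)) y)) (fun y => hp _)
    have b3 : |∑ y : Bx k m, se y * ∑ t : Tt m, sg t *
        (p (Fin.cons t y) - p (Fin.cons (nx t) y))| ≤
        ∑ t : Tt m, ∑ y : Bx k m, |p (Fin.cons t y) - p (Fin.cons (nx t) y)| := by
      rw [Finset.sum_comm]
      refine (Finset.abs_sum_le_sum_abs _ _).trans (Finset.sum_le_sum fun y _ => ?_)
      rw [abs_mul, abs_se, one_mul]
      refine (Finset.abs_sum_le_sum_abs _ _).trans (Finset.sum_le_sum fun t _ => ?_)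
      rw [abs_mul, abs_sg, one_mul]
    have e3 : ∑ i : Fin (k + 1), ∑ y, Fl p i y =
        ∑ t : Tt m, ∑ y : Bx k m, |p (Fin.cons t y) - p (Fin.cons (nx t) y)| + ∑ u, R u := by
      rw [Fin.sum_univ_succ]
      congr 1
      · rw [sum_cons]
        exact Finset.sum_congr rfl fun t _ => Finset.sum_congr rfl fun y _ => Fl_zero p t y
      · have e4 : ∑ u, R u = ∑ i : Fin k, ∑ t : Tt m, ∑ y : Bx k m,
            Fl (fun y => p (Fin.cons t y)) i y := Finset.sum_comm
        rw [e4]
        refine Finset.sum_congr rfl fun i _ => ?_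
        rw [sum_cons]
        exact Finset.sum_congr rfl fun t _ => Finset.sum_congr rfl fun y _ => Fl_succ p i t y
    rw [e1, e2, e3]
    have c1 := hRle (tt m 0)
    have c2 := hRle (tt m (2 * m))
    simp only [hR] at c1 c2 ⊢
    rw [abs_le] at b1 b2 b3 ⊢
    constructor <;> linarith [b1.1, b1.2, b2.1, b2.2, b3.1, b3.2]

/-- Alternating sums in terms of bonds. -/
theorem alt_bonds {k : ℕ} (p : Bx k m → ℝ) (hp : ∀ y, |p y| ≤ 1) :
    |∑ y, se y * p y| ≤ 1 + (1 / 2) * ∑ i : Bi k m, |p (bs i) - p (bt i)| := by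
  rw [← bond_sum]
  exact alt_box k p hp

theorem sum_se (k : ℕ) : ∑ y : Bx k m, se y = 1 := by
  induction k with
  | zero =>
    rw [Fintype.sum_unique]
    simp [se]
  | succ k ih =>
    rw [sum_cons]
    simp only [se_cons, ← Finset.mul_sum, ih, mul_one]
    have h1 := alt_one (m := m) (fun _ => 1)
    simp only [mul_one, sub_self, mul_zero, Finset.sum_const_zero, add_zero] at h1
    rw [h1]; norm_num

end Pool.Agent.L5helper86.EA
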