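import Mathlib

/-!
# Every probability measure on the line has power-law mass around typical points
-/

set_option autoImplicit false

open MeasureTheory

namespace Pool.Agent.L5helper86.EA

/-- dyadic intervals -/
def dy (n i : ℕ) : Set ℝ := Set.Ico ((i : ℝ) / 2 ^ n) (((i : ℝ) + 1) / 2 ^ n)

/-- A set of positive measure contains a point around which the mass of the balls decays at most
quadratically. -/
theorem good_point (μ : Measure ℝ) [IsProbabilityMeasure μ] {A : Set ℝ} {N : ℕ}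
    (hAN : A ⊆ Set.Ico 0 (N : ℝ)) (hA : 0 < μ A) :
    ∃ x ∈ A, ∃ b : ℝ, 0 < b ∧ ∀ r : ℝ, 0 < r → r ≤ 1 →
      ENNReal.ofReal (b * r ^ 2) ≤ μ (Set.Icc (x - r) (x + r)) := by
  classical
  set g : ℝ := (μ A).toReal with hg
  have hgp : 0 < g := ENNReal.toReal_pos hA.ne' (measure_ne_top _ _)
  set c : ℝ := g / (4 * (N + 1)) with hc
  have hcp : 0 < c := by positivity
  set Bad : ℕ → Set ℝ := fun n => ⋃ i ∈ (Finset.range (N * 2 ^ n)).filter
    (fun i => μ (dy n i) < ENNReal.ofReal (c * (1 / 4) ^ n)), dy n i with hBad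
  have hbad : ∀ n, μ (Bad n) ≤ ENNReal.ofReal (c * N * (1 / 2) ^ n) := by
    intro n
    refine (measure_biUnion_finset_le _ _).trans ?_
    have h1 : ∑ i ∈ (Finset.range (N * 2 ^ n)).filter
        (fun i => μ (dy n i) < ENNReal.ofReal (c * (1 / 4) ^ n)), μ (dy n i) ≤
        ∑ _i ∈ (Finset.range (N * 2 ^ n)).filter
        (fun i => μ (dy n i) < ENNReal.ofReal (c * (1 / 4) ^ n)),
          ENNReal.ofReal (c * (1 / 4) ^ n) :=
      Finset.sum_le_sum fun i hi => (Finset.mem_filter.1 hi).2.le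
    refine h1.trans ?_
    rw [Finset.sum_const, nsmul_eq_mul]
    have h2 : (((Finset.range (N * 2 ^ n)).filter
        (fun i => μ (dy n i) < ENNReal.ofReal (c * (1 / 4) ^ n))).card : ENNReal) ≤
        ENNReal.ofReal ((N * 2 ^ n : ℕ) : ℝ) := by
      rw [ENNReal.ofReal_natCast]
      exact_mod_cast (Finset.card_filter_le _ _).trans (le_of_eq (Finset.card_range _))
    refine (mul_le_mul_left h2 _).trans ?_
    rw [← ENNReal.ofReal_mul (Nat.cast_nonneg _)]
    apply ENNReal.ofReal_le_ofReal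
    apply le_of_eq
    push_cast
    have h3 : (1 / 4 : ℝ) ^ n = (1 / 2) ^ n * (1 / 2) ^ n := by rw [← mul_pow]; norm_num
    have h4 : (2 : ℝ) ^ n * (1 / 2) ^ n = 1 := by rw [← mul_pow]; norm_num
    rw [h3]
    calc (N : ℝ) * 2 ^ n * (c * ((1 / 2) ^ n * (1 / 2) ^ n)) =
        c * N * (1 / 2) ^ n * (2 ^ n * (1 / 2) ^ n) := by ring
      _ = c * N * (1 / 2) ^ n := by rw [h4, mul_one]
  have hsum : μ (⋃ n, Bad n) < μ A := by
    refine (measure_iUnion_le _).trans_lt ?_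
    refine (ENNReal.tsum_le_tsum hbad).trans_lt ?_
    rw [← ENNReal.ofReal_tsum_of_nonneg (fun n => by positivity)
      (Summable.mul_left _ summable_geometric_two), tsum_mul_left, tsum_geometric_two]
    rw [← ENNReal.ofReal_toReal (measure_ne_top μ A)]
    refine (ENNReal.ofReal_lt_ofReal_iff hgp).2 ?_
    rw [hc]
    have hN : (0 : ℝ) ≤ N := Nat.cast_nonneg N
    rw [div_mul_eq_mul_div, div_mul_eq_mul_div, div_lt_iff₀ (by positivity)]
    nlinarith
  obtain ⟨x, hxA, hx⟩ : ∃ x ∈ A, x ∉ ⋃ n, Bad n := by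
    by_contra hcon
    push Not at hcon
    exact absurd (measure_mono (μ := μ) hcon) (not_le.2 hsum)
  refine ⟨x, hxA, c / 4, by positivity, fun r hr hr1 => ?_⟩
  obtain ⟨n, hn1, hn2⟩ := exists_nat_pow_near_of_lt_one hr hr1 (by norm_num : (0 : ℝ) < 1 / 2)
    (by norm_num)
  have hx0 := (hAN hxA).1
  have hxN := (hAN hxA).2
  set i : ℕ := ⌊x * 2 ^ (n + 1)⌋₊ with hi
  have h2p : (0 : ℝ) < 2 ^ (n + 1) := by positivity
  have hi1 : (i : ℝ) ≤ x * 2 ^ (n + 1) := Nat.floor_le (by positivity)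
  have hi2 : x * 2 ^ (n + 1) < i + 1 := Nat.lt_floor_add_one _
  have hmem : x ∈ dy (n + 1) i := by
    unfold dy
    rw [Set.mem_Ico, div_le_iff₀ h2p, lt_div_iff₀ h2p]
    exact ⟨hi1, hi2⟩
  have hir : i < N * 2 ^ (n + 1) := by
    have h1 : (i : ℝ) < ((N * 2 ^ (n + 1) : ℕ) : ℝ) := by
      push_cast
      exact lt_of_le_of_lt hi1 (mul_lt_mul_of_pos_right hxN h2p)
    exact_mod_cast h1
  have hmass : ENNReal.ofReal (c * (1 / 4) ^ (n + 1)) ≤ μ (dy (n + 1) i) := by
    by_contra hlt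
    push Not at hlt
    apply hx
    rw [Set.mem_iUnion]
    refine ⟨n + 1, ?_⟩
    simp only [hBad, Set.mem_iUnion]
    exact ⟨i, Finset.mem_filter.2 ⟨Finset.mem_range.2 hir, hlt⟩, hmem⟩
  refine le_trans ?_ (hmass.trans (measure_mono ?_))
  · apply ENNReal.ofReal_le_ofReal
    have h3 : (1 / 4 : ℝ) ^ (n + 1) = (1 / 2) ^ (n + 1) * (1 / 2) ^ (n + 1) := by
      rw [← mul_pow]; norm_num
    have h4 : (1 / 2 : ℝ) ^ (n + 1) = (1 / 2) ^ n / 2 := by rw [pow_succ]; ring
    have h5 : r / 2 ≤ (1 / 2 : ℝ) ^ (n + 1) := by rw [h4]; linarith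
    have h6 : (r / 2) * (r / 2) ≤ (1 / 2 : ℝ) ^ (n + 1) * (1 / 2) ^ (n + 1) :=
      mul_le_mul h5 h5 (by positivity) (by positivity)
    rw [h3]
    nlinarith
  · intro y hy
    unfold dy at hy hmem
    rw [Set.mem_Ico, div_le_iff₀ h2p, lt_div_iff₀ h2p] at hy hmem
    have h7 : (1 / 2 : ℝ) ^ (n + 1) * 2 ^ (n + 1) = 1 := by rw [← mul_pow]; norm_num
    have h8 : |y - x| * 2 ^ (n + 1) < r * 2 ^ (n + 1) := by
      have h9 : 1 < r * 2 ^ (n + 1) := by
        rw [← h7]; exact mul_lt_mul_of_pos_right hn1 h2p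
      have h10 : |y - x| * 2 ^ (n + 1) ≤ 1 := by
        rw [← abs_of_pos h2p, ← abs_mul, abs_le]
        constructor <;> nlinarith
      linarith
    have h11 : |y - x| < r := lt_of_mul_lt_mul_right h8 h2p.le
    rw [abs_lt] at h11
    constructor <;> linarith

end Pool.Agent.L5helper86.EA
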