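import Pool.Agent.L5helper86.EA.Ex
import Pool.Agent.TH761.EB.Grow

/-!
# The pinning events: independence and probability
-/

set_option autoImplicit false

open Finset MeasureTheory ProbabilityTheory

namespace Pool.Agent.L5helper86.EA

open Pool.Agent.TH761.EA Pool.Agent.TH761.EB

/-- the bonds of the lattice -/
abbrev Ed (k : ℕ) : Type := (Fin (k + 1) → ℤ) × Fin (k + 1)

variable {k : ℕ} (w : ℕ → ℕ) (c : ℝ)

/-- the size of the weak bonds around a slice of half-width `m` -/
noncomputable def dl (m : ℕ) : ℝ := c / (4 * m + 3)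

/-- the bonds touching the slice `z` -/
noncomputable def blk (k : ℕ) (w : ℕ → ℕ) (z : ℤ) : Finset (Ed k) :=
  open Classical in (Tb k (w z.toNat) z).image ph

/-- the range of values of a bond touching the slice `z` -/
noncomputable def win (z : ℤ) (e : Ed k) : Set ℝ :=
  if e.2 = 0 then Set.Icc (-dl c (w z.toNat)) (dl c (w z.toNat)) else Set.Ici c

/-- the slice `z` is pinned -/
def Ev (z : ℤ) (J : Ed k → ℝ) : Prop := ∀ e ∈ blk k w z, J e ∈ win w c z e

lemma win_meas' (z : ℤ) (e : Ed k) : MeasurableSet (win w c z e) := by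
  unfold win
  split_ifs
  · exact measurableSet_Icc
  · exact measurableSet_Ici

lemma Ev_pi (z : ℤ) : {J : Ed k → ℝ | Ev w c z J} =
    Set.pi (blk k w z : Set (Ed k)) (fun e => win w c z e) := by
  ext J
  simp only [Set.mem_setOf_eq, Set.mem_pi, Finset.mem_coe, Ev]

lemma Ev_meas' (z : ℤ) : MeasurableSet {J : Ed k → ℝ | Ev w c z J} := by
  have : {J : Ed k → ℝ | Ev w c z J} =
      ⋂ e ∈ blk k w z, (fun J : Ed k → ℝ => J e) ⁻¹' win w c z e := by
    ext J; simp [Ev]
  rw [this]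
  exact Finset.measurableSet_biInter _ fun e _ => (measurable_pi_apply e) (win_meas' w c z e)

lemma blk_fst {z : ℤ} {e : Ed k} (he : e ∈ blk k w z) : e.1 0 = z ∨ e.1 0 = z - 1 := by
  classical
  unfold blk at he
  rw [Finset.mem_image] at he
  obtain ⟨⟨n, d⟩, h1, rfl⟩ := he
  have h2 : n = z ∨ n = z - 1 := by
    unfold Tb at h1
    simp only [Finset.mem_union, Finset.mem_image, Finset.mem_univ, true_and, Prod.mk.injEq] at h1
    rcases h1 with ⟨_, h, _⟩ | ⟨_, h, _⟩
    · left; exact h.symm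
    · right; exact h.symm
  rcases d with y | p
  · exact h2
  · exact h2

/-- The pinned slice of a ground state is constant. -/
theorem Ev_pin {c : ℝ} (hc : 0 < c) {z : ℤ} (hz : 0 ≤ z) {J : Ed k → ℝ} (h : Ev w c z J)
    {σ : (Fin (k + 1) → ℤ) → ℝ} (hσ : GS aa bb (horn k w) J σ) {v v' : Fin (k + 1) → ℤ}
    (hv : v ∈ horn k w) (hv' : v' ∈ horn k w) (h0 : v 0 = z) (h0' : v' 0 = z) : σ v = σ v' := by
  classical
  have hm : (0 : ℝ) ≤ (w z.toNat : ℝ) := Nat.cast_nonneg _
  have hmem1 : ∀ d : Bx k (w z.toNat) ⊕ Bi k (w z.toNat), ph (z, d) ∈ blk k w z := by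
    intro d
    unfold blk Tb
    exact Finset.mem_image_of_mem _ (Finset.mem_union_left _
      (Finset.mem_image_of_mem (fun d => (z, d)) (Finset.mem_univ d)))
  have hmem2 : ∀ y : Bx k (w z.toNat), ph (z - 1, (Sum.inl y : _ ⊕ Bi k (w z.toNat))) ∈
      blk k w z := by
    intro y
    unfold blk Tb
    exact Finset.mem_image_of_mem _ (Finset.mem_union_right _
      (Finset.mem_image_of_mem (fun y => (z - 1, (Sum.inl y : _ ⊕ Bi k (w z.toNat))))
        (Finset.mem_univ y)))
  refine pin' hz hc (δ := dl c (w z.toNat)) ?_ ?_ ?_ ?_ hσ hv hv' h0 h0'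
  · unfold dl
    rw [show 2 * (c / (4 * (w z.toNat : ℝ) + 3)) * ((2 * w z.toNat + 1 : ℕ) : ℝ) =
      c * ((4 * (w z.toNat : ℝ) + 2) / (4 * (w z.toNat : ℝ) + 3)) by push_cast; ring]
    have h1 : (4 * (w z.toNat : ℝ) + 2) / (4 * (w z.toNat : ℝ) + 3) < 1 := by
      rw [div_lt_one (by positivity)]
      linarith
    nlinarith
  · intro p
    have h1 := h _ (hmem1 (Sum.inr p))
    unfold win at h1
    rw [if_neg (by exact Fin.succ_ne_zero _)] at h1
    exact h1
  · intro y
    have h1 := h _ (hmem1 (Sum.inl y))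
    unfold win at h1
    rw [if_pos (show (ph (z, (Sum.inl y : _ ⊕ Bi k (w z.toNat)))).2 = 0 from rfl)] at h1
    exact abs_le.2 h1
  · intro y
    have h1 := h _ (hmem2 y)
    unfold win at h1
    rw [if_pos (show (ph (z - 1, (Sum.inl y : _ ⊕ Bi k (w z.toNat)))).2 = 0 from rfl)] at h1
    exact abs_le.2 h1

variable (μ : Measure ℝ) [IsProbabilityMeasure μ]

lemma ctr_of {j : ℕ} {e : Ed k} (he : e ∈ blk k w (2 * ((j : ℤ) + 1))) :
    (e.1 0 + 1) / 2 = (j : ℤ) + 1 := by
  rcases blk_fst w he with h | h <;> rw [h] <;> omega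

lemma Ev_indep : iIndepSet (fun j : ℕ => {J : Ed k → ℝ | Ev w c (2 * ((j : ℤ) + 1)) J})
    (Measure.infinitePi fun _ : Ed k => μ) := by
  classical
  rw [iIndepSet_iff_meas_biInter (fun j => Ev_meas' w c _)]
  intro S
  have hset : ∀ j : ℕ, {J : Ed k → ℝ | Ev w c (2 * ((j : ℤ) + 1)) J} =
      Set.pi (blk k w (2 * ((j : ℤ) + 1)) : Set (Ed k))
        (fun e => win w c (2 * ((e.1 0 + 1) / 2)) e) := by
    intro j
    ext J
    simp only [Set.mem_setOf_eq, Set.mem_pi, Finset.mem_coe, Ev]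
    refine forall₂_congr fun e he => ?_
    rw [ctr_of w he]
  have hinter : (⋂ j ∈ S, {J : Ed k → ℝ | Ev w c (2 * ((j : ℤ) + 1)) J}) =
      Set.pi ((S.biUnion fun j : ℕ => blk k w (2 * ((j : ℤ) + 1)) : Finset _) : Set (Ed k))
        (fun e => win w c (2 * ((e.1 0 + 1) / 2)) e) := by
    ext J
    simp only [Set.mem_iInter, hset, Set.mem_pi, Finset.coe_biUnion, Set.mem_iUnion,
      Finset.mem_coe]
    constructor
    · rintro h e ⟨j, hj, he⟩
      exact h j hj e he
    · intro h j hj e he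
      exact h e ⟨j, hj, he⟩
  rw [hinter]
  rw [Measure.infinitePi_pi _ (fun e _ => win_meas' w c _ e), Finset.prod_biUnion]
  · refine Finset.prod_congr rfl fun j _ => ?_
    rw [hset, Measure.infinitePi_pi _ (fun e _ => win_meas' w c _ e)]
  · intro j _ j' _ hjj'
    rw [Function.onFun, Finset.disjoint_left]
    intro e he he'
    apply hjj'
    have := (ctr_of w he).symm.trans (ctr_of w he')
    omega

lemma blk_card (z : ℤ) : (blk k w z).card ≤ (2 + k) * (2 * w z.toNat + 1) ^ k := by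
  classical
  unfold blk
  refine Finset.card_image_le.trans ?_
  unfold Tb
  refine (Finset.card_union_le _ _).trans ?_
  have h1 : ((univ : Finset (Bx k (w z.toNat) ⊕ Bi k (w z.toNat))).image
      fun c => (z, c)).card ≤ (2 * w z.toNat + 1) ^ k + (2 * w z.toNat + 1) ^ k * k := by
    refine Finset.card_image_le.trans ?_
    rw [Finset.card_univ, Fintype.card_sum, card_Bx]
    exact Nat.add_le_add_left (card_Bi k _) _
  have h2 : ((univ : Finset (Bx k (w z.toNat))).image
      fun y => (z - 1, (Sum.inl y : _ ⊕ Bi k (w z.toNat)))).card ≤ (2 * w z.toNat + 1) ^ k := by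
    refine Finset.card_image_le.trans ?_
    rw [Finset.card_univ, card_Bx]
  refine (Nat.add_le_add h1 h2).trans (le_of_eq ?_)
  ring

/-- lower bound for the probability of a pinned slice -/
lemma Ev_prob {c q : ℝ} (hq0 : 0 ≤ q) (hq1 : q ≤ 1) (z : ℤ)
    (h0 : ENNReal.ofReal q ≤ μ (Set.Icc (-dl c (w z.toNat)) (dl c (w z.toNat))))
    (h1 : ENNReal.ofReal q ≤ μ (Set.Ici c)) :
    ENNReal.ofReal (q ^ ((2 + k) * (2 * w z.toNat + 1) ^ k)) ≤
      (Measure.infinitePi fun _ : Ed k => μ) {J : Ed k → ℝ | Ev w c z J} := by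
  rw [Ev_pi, Measure.infinitePi_pi _ (fun e _ => win_meas' w c _ e), ENNReal.ofReal_pow hq0]
  refine (pow_le_pow_right_of_le_one' ?_ (blk_card w z)).trans ?_
  · exact ENNReal.ofReal_le_one.2 hq1
  · refine Finset.pow_card_le_prod _ _ _ fun e _ => ?_
    unfold win
    split_ifs
    · exact h0
    · exact h1

/-- Borel-Cantelli -/
theorem often' {c : ℝ} (hbig : ∀ᶠ j : ℕ in Filter.atTop, ENNReal.ofReal (1 / (2 * ((j : ℝ) + 1))) ≤
      (Measure.infinitePi fun _ : Ed k => μ) {J : Ed k → ℝ | Ev w c (2 * ((j : ℤ) + 1)) J}) :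
    ∀ᵐ J ∂(Measure.infinitePi fun _ : Ed k => μ), ∀ n0 : ℕ, ∃ z : ℤ, (n0 : ℤ) ≤ z ∧
      Ev w c z J := by
  set P := Measure.infinitePi fun _ : Ed k => μ with hP
  set s : ℕ → Set (Ed k → ℝ) := fun j => {J : Ed k → ℝ | Ev w c (2 * ((j : ℤ) + 1)) J} with hs
  have htop : ∑' j, P (s j) = ⊤ := by
    by_contra hne
    have hsum := ENNReal.summable_toReal hne
    have h1 : ∀ᶠ j : ℕ in Filter.atTop, 1 / (2 * ((j : ℝ) + 1)) ≤ (P (s j)).toReal := by
      filter_upwards [hbig] with j hj
      exact (ENNReal.ofReal_le_iff_le_toReal (measure_ne_top _ _)).1 hj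
    have h2 : Summable (fun j : ℕ => 1 / (2 * ((j : ℝ) + 1))) := by
      refine Summable.of_norm_bounded_eventually_nat hsum ?_
      filter_upwards [h1] with j hj
      rw [Real.norm_of_nonneg (by positivity)]
      exact hj
    have h3 : Summable (fun j : ℕ => 1 / ((j : ℝ) + 1)) := by
      have := h2.mul_left 2
      refine this.congr fun j => ?_
      field_simp
    have h4 : Summable (fun j : ℕ => 1 / ((j : ℝ))) := by
      rw [← summable_nat_add_iff 1]
      refine h3.congr fun j => ?_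
      push_cast
      rfl
    exact Real.not_summable_one_div_natCast h4
  have hlim := measure_limsup_eq_one (μ := P) (s := s) (fun j => Ev_meas' w c _)
    (Ev_indep w c μ) htop
  have h2 : ∀ᵐ J ∂P, J ∈ Filter.limsup s Filter.atTop := by
    rw [← prob_compl_eq_zero_iff₀] at hlim
    · exact hlim
    · exact (MeasurableSet.measurableSet_limsup fun j => Ev_meas' w c _).nullMeasurableSet
  filter_upwards [h2] with J hJ
  rw [Filter.limsup_eq_iInf_iSup_of_nat] at hJ
  intro n0
  simp only [Set.iInf_eq_iInter, Set.iSup_eq_iUnion, Set.mem_iInter, Set.mem_iUnion] at hJ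
  obtain ⟨b, hb, hJb⟩ := hJ n0
  exact ⟨2 * ((b : ℤ) + 1), by omega, hJb⟩

end Pool.Agent.L5helper86.EA
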