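import Pool.Agent.L5helper86.EA.Pin

/-!
# Existence of ground states on a horn of arbitrary widths
-/

set_option autoImplicit false

open Finset MeasureTheory ProbabilityTheory

namespace Pool.Agent.L5helper86.EA

open Pool.Agent.TH761.EA Pool.Agent.TH761.EB

section

variable {X E : Type} {a b : E → X} {R : Set X}

theorem exists_gs2 (hfib : ∀ x, {e | a e = x ∨ b e = x}.Finite)
    (hfront : ∀ D : Finset X, D.Nonempty → (D : Set X) ⊆ R →
      ∃ e, (a e ∈ D ∧ b e ∈ R ∧ b e ∉ D) ∨ (b e ∈ D ∧ a e ∈ R ∧ a e ∉ D))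
    {J : E → ℝ} (hJ : ∀ T1 T2 : Finset E, Disjoint T1 T2 → (∃ e, e ∈ T1 ∨ e ∈ T2) →
      ∑ e ∈ T1, J e ≠ ∑ e ∈ T2, J e) :
    ∃ σ, GS a b R J σ := by
  classical
  set c : Finset X → X → ℝ := fun A x => if x ∈ R then (if x ∈ A then -1 else 1) else 0 with hc
  have hcpm : ∀ A, Cf R (c A) := by
    intro A
    refine ⟨fun x hx => ?_, fun x hx => ?_⟩
    · simp only [hc, hx, if_true]; split_ifs <;> simp
    · simp only [hc, hx, if_false]
  set T : Finset X → Finset E := fun Λ => Λ.biUnion fun x => (hfib x).toFinset with hT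
  have memT : ∀ Λ e, e ∈ T Λ ↔ a e ∈ Λ ∨ b e ∈ Λ := by
    intro Λ e
    simp only [hT, Finset.mem_biUnion, Set.Finite.mem_toFinset, Set.mem_setOf_eq]
    constructor
    · rintro ⟨x, hx, h | h⟩
      · left; rw [h]; exact hx
      · right; rw [h]; exact hx
    · rintro (h | h)
      · exact ⟨_, h, Or.inl rfl⟩
      · exact ⟨_, h, Or.inr rfl⟩
  have hmax : ∀ Λ : Finset X, ∃ A : Finset X, A ⊆ Λ ∧ ∀ B : Finset X, B ⊆ Λ →
      ∑ e ∈ T Λ, J e * (c B (a e) * c B (b e)) ≤ ∑ e ∈ T Λ, J e * (c A (a e) * c A (b e)) := by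
    intro Λ
    obtain ⟨A, hA1, hA⟩ := Finset.exists_max_image Λ.powerset
      (fun A => ∑ e ∈ T Λ, J e * (c A (a e) * c A (b e))) ⟨∅, by simp⟩
    exact ⟨A, Finset.mem_powerset.1 hA1, fun B hB => hA B (Finset.mem_powerset.2 hB)⟩
  choose A hAs hA using hmax
  set U : Ultrafilter (Finset X) := Ultrafilter.of Filter.atTop with hU
  set σ : X → ℝ := fun x => if x ∈ R then (if ∀ᶠ Λ in (U : Filter (Finset X)), c (A Λ) x = 1
    then 1 else -1) else 0 with hσ
  have hlim : ∀ x, ∀ᶠ Λ in (U : Filter (Finset X)), c (A Λ) x = σ x := by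
    intro x
    by_cases hx : x ∈ R
    · by_cases h : ∀ᶠ Λ in (U : Filter (Finset X)), c (A Λ) x = 1
      · simp only [hσ, h, hx, if_true]
      · simp only [hσ, h, hx, if_false, if_true]
        rw [← Ultrafilter.eventually_not] at h
        filter_upwards [h] with Λ hΛ
        rcases (hcpm (A Λ)).1 x hx with h1 | h1
        · exact absurd h1 hΛ
        · exact h1
    · simp only [hσ, hx, if_false]
      exact Filter.Eventually.of_forall fun Λ => (hcpm (A Λ)).2 x hx
  have hPσ : Cf R σ := by
    refine ⟨fun x hx => ?_, fun x hx => ?_⟩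
    · simp only [hσ, hx, if_true]; split_ifs <;> simp
    · simp only [hσ, hx, if_false]
  refine ⟨σ, hPσ, ?_⟩
  intro ρ hρ hfin hne
  set D : Finset X := hfin.toFinset with hD
  have memD : ∀ x, x ∈ D ↔ ρ x ≠ σ x := by intro x; simp [hD]
  have hDR : (D : Set X) ⊆ R := by
    intro x hx
    by_contra hcx
    exact (memD x).1 hx (by rw [hρ.2 x hcx, hPσ.2 x hcx])
  have hDne : D.Nonempty := by
    by_contra hcon
    rw [Finset.not_nonempty_iff_eq_empty] at hcon
    apply hne
    funext x
    by_contra hx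
    have := (memD x).2 hx
    rw [hcon] at this
    simp at this
  have hoff : ∀ x, x ∉ D → ρ x = σ x := by
    intro x hx
    by_contra hc2
    exact hx ((memD x).2 hc2)
  -- the energy difference as a finite sum
  have hfs : ∑ᶠ e, J e * (σ (a e) * σ (b e) - ρ (a e) * ρ (b e)) =
      ∑ e ∈ T D, J e * (σ (a e) * σ (b e) - ρ (a e) * ρ (b e)) := by
    apply finsum_eq_sum_of_support_subset
    intro e he
    by_contra hc2
    apply he
    have h1 : ¬ (a e ∈ D ∨ b e ∈ D) := fun h => hc2 ((memT D e).2 h)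
    push Not at h1
    simp only [hoff _ h1.1, hoff _ h1.2, sub_self, mul_zero]
  rw [hfs]
  -- nonnegative
  have hnn : 0 ≤ ∑ e ∈ T D, J e * (σ (a e) * σ (b e) - ρ (a e) * ρ (b e)) := by
    have h1 : ∀ᶠ Λ in (U : Filter (Finset X)), ∀ e ∈ T D,
        c (A Λ) (a e) = σ (a e) ∧ c (A Λ) (b e) = σ (b e) :=
      (Filter.eventually_all_finset _).2 fun e _ => (hlim (a e)).and (hlim (b e))
    have h2 : ∀ᶠ Λ in (U : Filter (Finset X)), D ⊆ Λ :=
      Ultrafilter.of_le (Filter.atTop : Filter (Finset X)) (Filter.eventually_ge_atTop D)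
    obtain ⟨Λ, hΛ1, hΛ2⟩ := (h1.and h2).exists
    set B : Finset X := (A Λ \ D) ∪ D.filter (fun x => ρ x = -1) with hB
    have hBs : B ⊆ Λ := by
      intro x hx
      rw [hB, Finset.mem_union, Finset.mem_sdiff, Finset.mem_filter] at hx
      rcases hx with hx | hx
      · exact hAs Λ hx.1
      · exact hΛ2 hx.1
    have cBD : ∀ x ∈ D, c B x = ρ x := by
      intro x hx
      have hxR : x ∈ R := hDR hx
      simp only [hc, hxR, if_true, hB, Finset.mem_union, Finset.mem_sdiff, Finset.mem_filter, hx,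
        not_true_eq_false, and_false, true_and, false_or]
      rcases hρ.1 x hxR with h | h
      · rw [h]; norm_num
      · rw [h]; simp
    have cBo : ∀ x, x ∉ D → c B x = c (A Λ) x := by
      intro x hx
      simp only [hc, hB, Finset.mem_union, Finset.mem_sdiff, Finset.mem_filter, hx,
        not_false_eq_true, and_true, false_and, or_false]
    have h3 := hA Λ B hBs
    rw [← sub_nonneg, ← Finset.sum_sub_distrib] at h3
    have hsub : T D ⊆ T Λ := by
      intro e he
      rw [memT] at he ⊢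
      rcases he with he | he
      · exact Or.inl (hΛ2 he)
      · exact Or.inr (hΛ2 he)
    rw [← Finset.sum_subset hsub (fun e _ he => by
      rw [memT] at he
      push Not at he
      rw [cBo _ he.1, cBo _ he.2, sub_self])] at h3
    refine h3.trans (le_of_eq ?_)
    refine Finset.sum_congr rfl fun e he => ?_
    have h4 := hΛ1 e he
    have h5 : ∀ x, c (A Λ) x = σ x → c B x = ρ x := by
      intro x hx
      by_cases hxD : x ∈ D
      · exact cBD x hxD
      · rw [cBo x hxD, hx, hoff x hxD]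
    rw [h5 _ h4.1, h5 _ h4.2, h4.1, h4.2]
    ring
  refine lt_of_le_of_ne hnn (Ne.symm ?_)
  set T1 := (T D).filter (fun e => σ (a e) * σ (b e) - ρ (a e) * ρ (b e) = 2) with hT1
  set T2 := (T D).filter (fun e => σ (a e) * σ (b e) - ρ (a e) * ρ (b e) = -2) with hT2
  have hval : ∀ e, σ (a e) * σ (b e) - ρ (a e) * ρ (b e) = 0 ∨
      σ (a e) * σ (b e) - ρ (a e) * ρ (b e) = 2 ∨
      σ (a e) * σ (b e) - ρ (a e) * ρ (b e) = -2 := by
    intro e
    by_cases ha : a e ∈ R
    · by_cases hb : b e ∈ R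
      · rcases hPσ.1 _ ha with h1 | h1 <;> rcases hPσ.1 _ hb with h2 | h2 <;>
          rcases hρ.1 _ ha with h3 | h3 <;> rcases hρ.1 _ hb with h4 | h4 <;>
          rw [h1, h2, h3, h4] <;> norm_num
      · left; rw [hPσ.2 _ hb, hρ.2 _ hb]; ring
    · left; rw [hPσ.2 _ ha, hρ.2 _ ha]; ring
  have hsum : ∑ e ∈ T D, J e * (σ (a e) * σ (b e) - ρ (a e) * ρ (b e)) =
      2 * (∑ e ∈ T1, J e - ∑ e ∈ T2, J e) := by
    rw [hT1, hT2, Finset.sum_filter, Finset.sum_filter, ← Finset.sum_sub_distrib, Finset.mul_sum]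
    refine Finset.sum_congr rfl fun e _ => ?_
    rcases hval e with h1 | h1 | h1 <;> rw [h1] <;> norm_num
    · ring
    · ring
  rw [hsum]
  obtain ⟨e, he⟩ := hfront D hDne hDR
  have hne2 := hJ T1 T2 (by
    rw [Finset.disjoint_left]
    intro e h1 h2
    rw [hT1, Finset.mem_filter] at h1
    rw [hT2, Finset.mem_filter] at h2
    linarith [h1.2, h2.2]) ⟨e, by
    rcases he with ⟨he1, he2, he3⟩ | ⟨he1, he2, he3⟩
    · have h1 : ρ (a e) ≠ σ (a e) := (memD _).1 he1
      have h2 : ρ (b e) = σ (b e) := hoff _ he3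
      have haR : a e ∈ R := hDR he1
      rw [hT1, hT2, Finset.mem_filter, Finset.mem_filter, h2]
      have hmem : e ∈ T D := (memT D e).2 (Or.inl he1)
      simp only [hmem, true_and]
      rcases hPσ.1 _ haR with h3 | h3 <;> rcases hρ.1 _ haR with h4 | h4 <;>
        rcases hPσ.1 _ he2 with h5 | h5 <;> rw [h3, h4, h5] <;>
        first | exact absurd (h4.trans h3.symm) h1 | norm_num
    · have h1 : ρ (b e) ≠ σ (b e) := (memD _).1 he1
      have h2 : ρ (a e) = σ (a e) := hoff _ he3
      have hbR : b e ∈ R := hDR he1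
      rw [hT1, hT2, Finset.mem_filter, Finset.mem_filter, h2]
      have hmem : e ∈ T D := (memT D e).2 (Or.inr he1)
      simp only [hmem, true_and]
      rcases hPσ.1 _ hbR with h3 | h3 <;> rcases hρ.1 _ hbR with h4 | h4 <;>
        rcases hPσ.1 _ he2 with h5 | h5 <;> rw [h3, h4, h5] <;>
        first | exact absurd (h4.trans h3.symm) h1 | norm_num⟩
  intro h0
  apply hne2
  linarith

end

variable {k : ℕ} {w : ℕ → ℕ}

/-- The horn is connected and infinite. -/
lemma front (D : Finset (Fin (k + 1) → ℤ)) (hD : D.Nonempty)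
    (hDR : (D : Set (Fin (k + 1) → ℤ)) ⊆ horn k w) :
    ∃ e : (Fin (k + 1) → ℤ) × Fin (k + 1), (aa e ∈ D ∧ bb e ∈ horn k w ∧ bb e ∉ D) ∨
      (bb e ∈ D ∧ aa e ∈ horn k w ∧ aa e ∉ D) := by
  classical
  by_contra hcon
  push Not at hcon
  have hc1 : ∀ e : (Fin (k + 1) → ℤ) × Fin (k + 1), aa e ∈ D → bb e ∈ horn k w → bb e ∈ D :=
    fun e h1 h2 => (hcon e).1 h1 h2
  have hc2 : ∀ e : (Fin (k + 1) → ℤ) × Fin (k + 1), bb e ∈ D → aa e ∈ horn k w → aa e ∈ D :=
    fun e h1 h2 => (hcon e).2 h1 h2
  have hcen : ∀ (n : ℕ) (x : Fin (k + 1) → ℤ), x ∈ D → ∑ i : Fin k, (x i.succ).natAbs = n →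
      cen k (x 0) ∈ D := by
    intro n
    induction n with
    | zero =>
      intro x hx hsum
      have h1 : cen k (x 0) = x := by
        funext j
        refine Fin.cases ?_ (fun i => ?_) j
        · rfl
        · have h2 := (Finset.sum_eq_zero_iff.1 hsum) i (Finset.mem_univ _)
          simp only [Int.natAbs_eq_zero] at h2
          rw [h2]
          simp [cen]
      rw [h1]; exact hx
    | succ n ih =>
      intro x hx hsum
      obtain ⟨i, -, hi⟩ : ∃ i ∈ (Finset.univ : Finset (Fin k)), (x i.succ).natAbs ≠ 0 := by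
        apply Finset.exists_ne_zero_of_sum_ne_zero
        rw [hsum]; omega
      have hxR := hDR hx
      -- one step towards the axis
      have hstep : ∀ t : ℤ, (t = 1 ∨ t = -1) → (x i.succ + t).natAbs + 1 = (x i.succ).natAbs →
          (x + Pi.single i.succ t) ∈ D → cen k (x 0) ∈ D := by
        intro t ht hnat hmem
        have h0 : (0 : Fin (k + 1)) ≠ i.succ := (Fin.succ_ne_zero _).symm
        have e0 : (x + (Pi.single i.succ t : Fin (k + 1) → ℤ)) 0 = x 0 := by simp [h0]
        have h3 := ih (x + Pi.single i.succ t) hmem (by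
          have h4 : ∀ j : Fin k, j ≠ i →
              (x + (Pi.single i.succ t : Fin (k + 1) → ℤ)) j.succ = x j.succ := by
            intro j hj
            have : (j.succ : Fin (k + 1)) ≠ i.succ := fun h => hj (Fin.succ_injective _ h)
            simp [this]
          have h5 : (x + (Pi.single i.succ t : Fin (k + 1) → ℤ)) i.succ = x i.succ + t := by simp
          rw [← Finset.add_sum_erase _ _ (Finset.mem_univ i)] at hsum ⊢
          rw [h5]
          have h6 : ∑ j ∈ Finset.univ.erase i,
              ((x + (Pi.single i.succ t : Fin (k + 1) → ℤ)) j.succ).natAbs =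
              ∑ j ∈ Finset.univ.erase i, (x j.succ).natAbs :=
            Finset.sum_congr rfl fun j hj => by rw [h4 j (Finset.ne_of_mem_erase hj)]
          rw [h6]
          omega)
        rwa [e0] at h3
      have hin : ∀ t : ℤ, (x i.succ + t).natAbs + 1 = (x i.succ).natAbs →
          (x + Pi.single i.succ t) ∈ horn k w := by
        intro t hnat
        have h0 : (0 : Fin (k + 1)) ≠ i.succ := (Fin.succ_ne_zero _).symm
        have e0 : (x + (Pi.single i.succ t : Fin (k + 1) → ℤ)) 0 = x 0 := by simp [h0]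
        refine ⟨by rw [e0]; exact hxR.1, fun j => ?_⟩
        rw [e0]
        by_cases hj : j = i
        · subst hj
          have h5 : (x + (Pi.single j.succ t : Fin (k + 1) → ℤ)) j.succ = x j.succ + t := by simp
          rw [h5]
          have h6 := hxR.2 j
          have h7 : |x j.succ + t| ≤ |x j.succ| := by
            rw [Int.abs_eq_natAbs, Int.abs_eq_natAbs]
            exact_mod_cast (by omega : (x j.succ + t).natAbs ≤ (x j.succ).natAbs)
          exact h7.trans h6
        · have h4 : (x + (Pi.single i.succ t : Fin (k + 1) → ℤ)) j.succ = x j.succ := by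
            have : (j.succ : Fin (k + 1)) ≠ i.succ := fun h => hj (Fin.succ_injective _ h)
            simp [this]
          rw [h4]
          exact hxR.2 j
      rcases lt_or_gt_of_ne (fun h => hi (by rw [h]; rfl) : x i.succ ≠ 0) with hneg | hpos
      · have hnat : (x i.succ + 1).natAbs + 1 = (x i.succ).natAbs := by omega
        exact hstep 1 (Or.inl rfl) hnat (hc1 (x, i.succ) hx (hin 1 hnat))
      · have hnat : (x i.succ + -1).natAbs + 1 = (x i.succ).natAbs := by omega
        refine hstep (-1) (Or.inr rfl) hnat (hc2 (x + Pi.single i.succ (-1), i.succ) ?_ ?_)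
        · have : bb (x + Pi.single i.succ (-1), i.succ) = x := by
            simp only [bb]
            rw [add_assoc, ← Pi.single_add]
            simp
          rw [this]; exact hx
        · exact hin (-1) hnat
  obtain ⟨x, hx, hmax⟩ := Finset.exists_max_image D (fun v => v 0) hD
  have h1 := hcen _ x hx rfl
  have h2 : bb (cen k (x 0), (0 : Fin (k + 1))) = cen k (x 0 + 1) := by
    funext j
    refine Fin.cases ?_ (fun i => ?_) j
    · simp [bb, cen]
    · simp [bb, cen]
  have h3 := hc1 (cen k (x 0), 0) h1 (by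
    rw [h2]
    exact cen_mem w (by have := (hDR hx).1; omega))
  rw [h2] at h3
  have h4 := hmax _ h3
  have h5 : cen k (x 0 + 1) 0 = x 0 + 1 := rfl
  simp only [h5] at h4
  omega

end Pool.Agent.L5helper86.EA
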