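import Pool.Agent.TH761.EB.Uniq

/-!
# A box is an expander up to its side length

Canonical paths: the sum of `|f x - f y|` over all pairs of sites of a box is at most the number of
sites times the side length times the sum of `|f x - f y|` over the bonds.
-/

set_option autoImplicit false

open Finset

namespace Pool.Agent.L5helper86.EA

open Pool.Agent.TH761.EA Pool.Agent.TH761.EB

/-- the integers of the interval -/
abbrev Tt (m : ℕ) : Type := Finset.Icc (-(m : ℤ)) (m : ℤ)

/-- the next integer of the interval -/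
def nx {m : ℕ} (u : Tt m) : Tt m := ⟨min (m : ℤ) (u + 1), by
  have h := Finset.mem_Icc.1 u.2
  rw [Finset.mem_Icc]
  constructor <;> omega⟩

lemma line_le {m : ℕ} (h : Tt m → ℝ) (n : ℕ) : ∀ s t : Tt m, (t : ℤ) = s + n →
    |h s - h t| ≤ ∑ u ∈ univ.filter (fun u : Tt m => (s : ℤ) ≤ u ∧ (u : ℤ) < t),
      |h u - h (nx u)| := by
  induction n with
  | zero =>
    intro s t hst
    have : s = t := Subtype.ext (by push_cast at hst; omega)
    rw [this, sub_self, abs_zero]
    exact Finset.sum_nonneg fun _ _ => abs_nonneg _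
  | succ n ih =>
    intro s t hst
    have ht := Finset.mem_Icc.1 t.2
    have hs := Finset.mem_Icc.1 s.2
    push_cast at hst
    set t' : Tt m := ⟨(t : ℤ) - 1, by rw [Finset.mem_Icc]; constructor <;> omega⟩ with ht'
    have ht'v : (t' : ℤ) = t - 1 := rfl
    have h1 := ih s t' (by rw [ht'v]; omega)
    have hn : nx t' = t := by
      apply Subtype.ext
      simp only [nx, ht'v]
      omega
    have h2 : univ.filter (fun u : Tt m => (s : ℤ) ≤ u ∧ (u : ℤ) < t) =
        insert t' (univ.filter (fun u : Tt m => (s : ℤ) ≤ u ∧ (u : ℤ) < t')) := by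
      ext u
      simp only [Finset.mem_filter, Finset.mem_univ, true_and, Finset.mem_insert]
      constructor
      · intro hu
        by_cases hut : (u : ℤ) = t'
        · left; exact Subtype.ext hut
        · right; omega
      · rintro (hu | hu)
        · rw [hu]; omega
        · omega
    rw [h2, Finset.sum_insert (by simp), hn]
    have h3 : |h s - h t| ≤ |h s - h t'| + |h t' - h t| := abs_sub_le _ _ _
    linarith

lemma line {m : ℕ} (h : Tt m → ℝ) (s t : Tt m) : |h s - h t| ≤ ∑ u : Tt m, |h u - h (nx u)| := by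
  rcases le_total (s : ℤ) t with hst | hst
  · obtain ⟨n, hn⟩ := Int.le.dest hst
    exact (line_le h n s t hn.symm).trans (Finset.sum_le_sum_of_subset_of_nonneg
      (Finset.filter_subset _ _) fun _ _ _ => abs_nonneg _)
  · obtain ⟨n, hn⟩ := Int.le.dest hst
    rw [abs_sub_comm]
    exact (line_le h n t s hn.symm).trans (Finset.sum_le_sum_of_subset_of_nonneg
      (Finset.filter_subset _ _) fun _ _ _ => abs_nonneg _)

variable {k m : ℕ}

/-- variation of `f` along the line in direction `i` through `a` -/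
noncomputable def Dl (f : Bx k m → ℝ) (i : Fin k) (a : Bx k m) : ℝ :=
  ∑ u : Tt m, |f (Function.update a i u) - f (Function.update a i (nx u))|

/-- variation over the bond in direction `i` at `x` -/
noncomputable def Fl (f : Bx k m → ℝ) (i : Fin k) (x : Bx k m) : ℝ :=
  |f x - f (Function.update x i (nx (x i)))|

lemma Dl_sum (f : Bx k m → ℝ) (i : Fin k) :
    ∑ a, Dl f i a = (2 * m + 1 : ℕ) * ∑ x, Fl f i x := by
  have h1 : ∀ (a : Bx k m) (u : Tt m), |f (Function.update a i u) -
      f (Function.update a i (nx u))| = Fl f i (Function.update a i u) := by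
    intro a u
    unfold Fl
    rw [Function.update_self, Function.update_idem]
  set g : Bx k m × Tt m → Bx k m × Tt m := fun q => (Function.update q.1 i q.2, q.1 i) with hg
  have hinv : Function.Involutive g := by
    rintro ⟨a, u⟩
    simp only [hg, Function.update_self, Function.update_idem, Function.update_eq_self]
  have h2 : ∑ q : Bx k m × Tt m, Fl f i (g q).1 = ∑ q : Bx k m × Tt m, Fl f i q.1 :=
    Equiv.sum_comp hinv.toPerm (fun q : Bx k m × Tt m => Fl f i q.1)
  rw [Fintype.sum_prod_type, Fintype.sum_prod_type] at h2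
  unfold Dl
  rw [show ∑ a : Bx k m, ∑ u : Tt m, |f (Function.update a i u) -
      f (Function.update a i (nx u))| = ∑ a : Bx k m, ∑ u : Tt m, Fl f i (g (a, u)).1 from
    Finset.sum_congr rfl fun a _ => Finset.sum_congr rfl fun u _ => h1 a u, h2, Finset.mul_sum]
  refine Finset.sum_congr rfl fun x _ => ?_
  have hc : Fintype.card (Tt m) = 2 * m + 1 := by
    rw [Fintype.card_coe, Int.card_Icc]; omega
  show ∑ _y : Tt m, Fl f i x = (2 * m + 1 : ℕ) * Fl f i x
  rw [Finset.sum_const, Finset.card_univ, hc, nsmul_eq_mul]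

/-- first coordinates from `y`, the others from `x` -/
def hyb (i : ℕ) (x y : Bx k m) : Bx k m := fun j => if (j : ℕ) < i then y j else x j

lemma hyb_sum (G : Bx k m → ℝ) (i : ℕ) :
    ∑ x : Bx k m, ∑ y : Bx k m, G (hyb i x y) = (Fintype.card (Bx k m) : ℝ) * ∑ a, G a := by
  set g : Bx k m × Bx k m → Bx k m × Bx k m := fun q => (hyb i q.1 q.2, hyb i q.2 q.1) with hg
  have hinv : Function.Involutive g := by
    rintro ⟨x, y⟩
    simp only [hg, Prod.mk.injEq]
    constructor
    · funext j
      simp only [hyb]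
      split_ifs <;> rfl
    · funext j
      simp only [hyb]
      split_ifs <;> rfl
  have h2 : ∑ q : Bx k m × Bx k m, G (g q).1 = ∑ q : Bx k m × Bx k m, G q.1 :=
    Equiv.sum_comp hinv.toPerm (fun q : Bx k m × Bx k m => G q.1)
  rw [Fintype.sum_prod_type, Fintype.sum_prod_type] at h2
  have h3 : ∑ x : Bx k m, ∑ y : Bx k m, G (hyb i x y) =
      ∑ x : Bx k m, ∑ y : Bx k m, G (g (x, y)).1 := rfl
  rw [h3, h2, Finset.mul_sum]
  refine Finset.sum_congr rfl fun x _ => ?_
  show ∑ _y : Bx k m, G x = (Fintype.card (Bx k m) : ℝ) * G x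
  rw [Finset.sum_const, Finset.card_univ, nsmul_eq_mul]

lemma hyb_le (f : Bx k m → ℝ) (n : ℕ) (hn : n ≤ k) :
    ∑ x : Bx k m, ∑ y : Bx k m, |f x - f (hyb n x y)| ≤
      ∑ i ∈ univ.filter (fun i : Fin k => (i : ℕ) < n),
        (Fintype.card (Bx k m) : ℝ) * ((2 * m + 1 : ℕ) * ∑ x, Fl f i x) := by
  induction n with
  | zero =>
    have h0 : ∀ x y : Bx k m, hyb 0 x y = x := fun x y => by funext j; simp [hyb]
    simp [h0]
  | succ n ih =>
    have ih' := ih (by omega)
    set i : Fin k := ⟨n, by omega⟩ with hi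
    have h1 : univ.filter (fun j : Fin k => (j : ℕ) < n + 1) =
        insert i (univ.filter (fun j : Fin k => (j : ℕ) < n)) := by
      ext j
      simp only [Finset.mem_filter, Finset.mem_univ, true_and, Finset.mem_insert, hi, Fin.ext_iff]
      omega
    rw [h1, Finset.sum_insert (by simp [hi])]
    have h2 : ∀ x y : Bx k m, |f x - f (hyb (n + 1) x y)| ≤
        |f x - f (hyb n x y)| + Dl f i (hyb n x y) := by
      intro x y
      have e1 : hyb n x y = Function.update (hyb n x y) i (x i) := by
        funext j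
        by_cases hj : j = i
        · subst hj; simp [hyb, hi]
        · simp [hj]
      have e2 : hyb (n + 1) x y = Function.update (hyb n x y) i (y i) := by
        funext j
        by_cases hj : j = i
        · subst hj; simp [hyb, hi]
        · have hj' : (j : ℕ) ≠ n := fun h => hj (Fin.ext h)
          rw [Function.update_of_ne hj]
          simp only [hyb]
          by_cases h3 : (j : ℕ) < n
          · rw [if_pos h3, if_pos (by omega)]
          · rw [if_neg h3, if_neg (by omega)]
      have e3 : |f (Function.update (hyb n x y) i (x i)) -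
          f (Function.update (hyb n x y) i (y i))| ≤ Dl f i (hyb n x y) :=
        line (fun u => f (Function.update (hyb n x y) i u)) (x i) (y i)
      rw [← e1, ← e2] at e3
      exact (abs_sub_le _ (f (hyb n x y)) _).trans (by linarith)
    calc ∑ x : Bx k m, ∑ y : Bx k m, |f x - f (hyb (n + 1) x y)|
        ≤ ∑ x : Bx k m, ∑ y : Bx k m, (|f x - f (hyb n x y)| + Dl f i (hyb n x y)) :=
          Finset.sum_le_sum fun x _ => Finset.sum_le_sum fun y _ => h2 x y
      _ = ∑ x : Bx k m, ∑ y : Bx k m, |f x - f (hyb n x y)| +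
          ∑ x : Bx k m, ∑ y : Bx k m, Dl f i (hyb n x y) := by
          simp only [Finset.sum_add_distrib]
      _ ≤ _ := by
          rw [hyb_sum, Dl_sum]
          linarith

lemma bond_sum (f : Bx k m → ℝ) :
    ∑ i : Fin k, ∑ x : Bx k m, Fl f i x = ∑ p : Bi k m, |f (bs p) - f (bt p)| := by
  classical
  rw [Finset.sum_comm, ← Fintype.sum_prod_type' (f := fun (x : Bx k m) (i : Fin k) => Fl f i x)]
  have h1 : ∑ p : Bi k m, |f (bs p) - f (bt p)| = ∑ p : Bi k m, Fl f p.1.2 p.1.1 := by
    refine Finset.sum_congr rfl fun p _ => ?_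
    unfold Fl
    have e1 : bt p = Function.update p.1.1 p.1.2 (nx (p.1.1 p.1.2)) := by
      unfold bt
      congr 1
      apply Subtype.ext
      have := p.2
      simp only [nx]
      omega
    rw [e1]
    rfl
  rw [h1]
  have h2 : ∑ p : Bi k m, Fl f p.1.2 p.1.1 =
      ∑ q ∈ univ.filter (fun q : Bx k m × Fin k => ((q.1 q.2 : Tt m) : ℤ) < m), Fl f q.2 q.1 :=
    (Finset.sum_subtype (univ.filter (fun q : Bx k m × Fin k => ((q.1 q.2 : Tt m) : ℤ) < m))
      (fun q => by simp) (fun q => Fl f q.2 q.1)).symm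
  rw [h2, Finset.sum_filter]
  refine Finset.sum_congr rfl fun q _ => ?_
  split_ifs with h
  · rfl
  · unfold Fl
    have h3 := Finset.mem_Icc.1 (q.1 q.2).2
    have e1 : nx (q.1 q.2) = q.1 q.2 := by
      apply Subtype.ext
      simp only [nx]
      omega
    rw [e1, Function.update_eq_self, sub_self, abs_zero]

/-- Canonical paths. -/
theorem pairs_le (f : Bx k m → ℝ) :
    ∑ x : Bx k m, ∑ y : Bx k m, |f x - f y| ≤
      (Fintype.card (Bx k m) : ℝ) * ((2 * m + 1 : ℕ) * ∑ p : Bi k m, |f (bs p) - f (bt p)|) := by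
  have h1 := hyb_le f k le_rfl
  have h2 : ∀ x y : Bx k m, hyb k x y = y := fun x y => by funext j; simp [hyb]
  simp only [h2] at h1
  refine h1.trans (le_of_eq ?_)
  rw [← bond_sum, ← Finset.mul_sum, ← Finset.mul_sum]
  congr 3
  ext i
  simp

/-- Isoperimetry for a spin configuration. -/
theorem const_of_le {f : Bx k m → ℝ} (hf : ∀ x, f x = 1 ∨ f x = -1) {c δ : ℝ} (hc : 0 < c)
    (hδ : 2 * δ * (2 * m + 1 : ℕ) < c)
    (h : ∀ v : ℝ, (v = 1 ∨ v = -1) →
      c * ∑ p : Bi k m, |f (bs p) - f (bt p)| ≤ 2 * δ * ∑ y, |v - f y|) :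
    ∀ x y, f x = f y := by
  classical
  set E := ∑ p : Bi k m, |f (bs p) - f (bt p)| with hE
  set A := ∑ y, |1 - f y| with hA
  set B := ∑ y, |-1 - f y| with hB
  set n : ℝ := (Fintype.card (Bx k m) : ℝ) with hn
  have hA0 : 0 ≤ A := Finset.sum_nonneg fun _ _ => abs_nonneg _
  have hB0 : 0 ≤ B := Finset.sum_nonneg fun _ _ => abs_nonneg _
  have hAB : A + B = 2 * n := by
    rw [hA, hB, ← Finset.sum_add_distrib]
    have : ∀ y : Bx k m, |1 - f y| + |-1 - f y| = 2 := by
      intro y
      rcases hf y with h1 | h1 <;> rw [h1] <;> norm_num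
    simp only [this]
    rw [Finset.sum_const, Finset.card_univ, nsmul_eq_mul, hn, mul_comm]
  have hprod : ∑ x : Bx k m, ∑ y : Bx k m, |f x - f y| = A * B := by
    have h1 : ∀ x y : Bx k m, |f x - f y| =
        (|1 - f x| * |-1 - f y| + |-1 - f x| * |1 - f y|) / 2 := by
      intro x y
      rcases hf x with h1 | h1 <;> rcases hf y with h2 | h2 <;> rw [h1, h2] <;> norm_num
    simp only [h1]
    simp only [← Finset.sum_div, Finset.sum_add_distrib, ← Finset.mul_sum, ← Finset.sum_mul]
    rw [← hA, ← hB]; ring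
  have hp := pairs_le f
  rw [hprod, ← hE, ← hn] at hp
  have h1 := h 1 (Or.inl rfl)
  have h2 := h (-1) (Or.inr rfl)
  rw [← hA] at h1
  rw [← hB] at h2
  have hn0 : 0 ≤ n := Nat.cast_nonneg _
  have hN0 : (0 : ℝ) ≤ (2 * m + 1 : ℕ) := Nat.cast_nonneg _
  -- the smaller of `A`, `B` vanishes
  have hmin : A = 0 ∨ B = 0 := by
    rcases le_total A B with hle | hle
    · left
      by_contra hne
      have hApos : 0 < A := lt_of_le_of_ne hA0 (Ne.symm hne)
      have hnB : n ≤ B := by linarith
      have e1 : c * (A * B) ≤ n * ((2 * m + 1 : ℕ) * (2 * δ * A)) := by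
        calc c * (A * B) ≤ c * (n * ((2 * m + 1 : ℕ) * E)) := mul_le_mul_of_nonneg_left hp hc.le
          _ = n * ((2 * m + 1 : ℕ) * (c * E)) := by ring
          _ ≤ _ := mul_le_mul_of_nonneg_left (mul_le_mul_of_nonneg_left h1 hN0) hn0
      have e2 : c * (A * n) ≤ c * (A * B) :=
        mul_le_mul_of_nonneg_left (mul_le_mul_of_nonneg_left hnB hA0) hc.le
      have hnpos : 0 < n := by linarith
      have e3 : 0 < A * n := mul_pos hApos hnpos
      have e4 : (2 * δ * (2 * m + 1 : ℕ)) * (A * n) < c * (A * n) :=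
        mul_lt_mul_of_pos_right hδ e3
      have e5 : n * ((2 * m + 1 : ℕ) * (2 * δ * A)) = (2 * δ * (2 * m + 1 : ℕ)) * (A * n) := by ring
      linarith
    · right
      by_contra hne
      have hBpos : 0 < B := lt_of_le_of_ne hB0 (Ne.symm hne)
      have hnA : n ≤ A := by linarith
      have e1 : c * (A * B) ≤ n * ((2 * m + 1 : ℕ) * (2 * δ * B)) := by
        calc c * (A * B) ≤ c * (n * ((2 * m + 1 : ℕ) * E)) := mul_le_mul_of_nonneg_left hp hc.le
          _ = n * ((2 * m + 1 : ℕ) * (c * E)) := by ring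
          _ ≤ _ := mul_le_mul_of_nonneg_left (mul_le_mul_of_nonneg_left h2 hN0) hn0
      have e2 : c * (n * B) ≤ c * (A * B) :=
        mul_le_mul_of_nonneg_left (mul_le_mul_of_nonneg_right hnA hB0) hc.le
      have hnpos : 0 < n := by linarith
      have e3 : 0 < n * B := mul_pos hnpos hBpos
      have e4 : (2 * δ * (2 * m + 1 : ℕ)) * (n * B) < c * (n * B) :=
        mul_lt_mul_of_pos_right hδ e3
      have e5 : n * ((2 * m + 1 : ℕ) * (2 * δ * B)) = (2 * δ * (2 * m + 1 : ℕ)) * (n * B) := by ring
      linarith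
  intro x y
  rcases hmin with h0 | h0
  · have h3 := (Finset.sum_eq_zero_iff_of_nonneg (fun _ _ => abs_nonneg _)).1 h0
    have h4 := abs_eq_zero.1 (h3 x (Finset.mem_univ _))
    have h5 := abs_eq_zero.1 (h3 y (Finset.mem_univ _))
    linarith
  · have h3 := (Finset.sum_eq_zero_iff_of_nonneg (fun _ _ => abs_nonneg _)).1 h0
    have h4 := abs_eq_zero.1 (h3 x (Finset.mem_univ _))
    have h5 := abs_eq_zero.1 (h3 y (Finset.mem_univ _))
    linarith

end Pool.Agent.L5helper86.EA
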