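import Pool.Agent.L5helper86.EA.Slab

/-!
# Two locally optimal configurations have a common constant slice in a slab of logarithmic height
-/

set_option autoImplicit false

open Finset

namespace Pool.Agent.L5helper86.EA

open Pool.Agent.TH761.EA Pool.Agent.TH761.EB

/-- geometric decay -/
theorem exists_zero {F : ℤ → ℝ} (h0 : ∀ n, 0 ≤ F n) (h2 : ∀ n, F n < 2 → F n = 0) {P Q : ℤ}
    {K : ℝ} {h : ℕ} (hh : 16 * K ≤ h) (hpos : 0 < h)
    (hs : ∀ p q, P ≤ p → p + 2 ≤ q → q ≤ Q → ∑ n ∈ Ioo p q, F n ≤ K * (F p + F q + 9)) (j : ℕ) :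
    ∀ p q, P ≤ p → q ≤ Q → (2 * (h : ℤ) + 2) * j ≤ q - p → F p ≤ 2 ^ j → F q ≤ 2 ^ j →
      ∃ n, p ≤ n ∧ n ≤ q ∧ F n = 0 := by
  induction j with
  | zero =>
    intro p q _ _ hpq hp _
    refine ⟨p, le_rfl, ?_, h2 p ?_⟩
    · simp only [Nat.cast_zero, mul_zero] at hpq
      omega
    · norm_num at hp
      linarith
  | succ j ih =>
    intro p q hP hQ hpq hp hq
    push_cast at hpq
    have hpq' : (2 * (h : ℤ) + 2) * j + (2 * h + 2) ≤ q - p := by linarith
    have hj0 : 0 ≤ (2 * (h : ℤ) + 2) * j := by positivity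
    have hsum := hs p q hP (by omega) hQ
    have hhp : (0 : ℝ) < h := by exact_mod_cast hpos
    have h2j : (1 : ℝ) ≤ 2 ^ j := one_le_pow₀ (by norm_num)
    have hjj : (2 : ℝ) ^ (j + 1) = 2 * 2 ^ j := by rw [pow_succ]; ring
    rw [hjj] at hp hq
    set c : ℝ := (4 * 2 ^ j + 9) / 16 with hc
    have hsum' : ∑ n ∈ Ioo p q, F n ≤ h * c := by
      have hF : 0 ≤ F p + F q + 9 := by linarith [h0 p, h0 q]
      have e1 : K * (F p + F q + 9) ≤ (h / 16) * (F p + F q + 9) :=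
        mul_le_mul_of_nonneg_right (by linarith) hF
      have e2 : ((h : ℝ) / 16) * (F p + F q + 9) ≤ (h / 16) * (4 * 2 ^ j + 9) :=
        mul_le_mul_of_nonneg_left (by linarith) (by positivity)
      have e3 : ((h : ℝ) / 16) * (4 * 2 ^ j + 9) = h * c := by rw [hc]; ring
      linarith
    have hfind : ∀ a : ℤ, p ≤ a → a + h < q → ∃ n, a < n ∧ n ≤ a + h ∧ F n ≤ 2 ^ j := by
      intro a ha hb
      by_contra hcon
      push Not at hcon
      have hlt : ∀ n ∈ Ioc a (a + h), c < F n := by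
        intro n hn
        rw [Finset.mem_Ioc] at hn
        have := hcon n hn.1 hn.2
        rw [hc]
        linarith
      have e1 : h * c < ∑ n ∈ Ioc a (a + h), F n := by
        have e2 : ∑ _n ∈ Ioc a (a + h), c = h * c := by
          rw [Finset.sum_const, Int.card_Ioc, nsmul_eq_mul]
          congr 2
          omega
        rw [← e2]
        refine Finset.sum_lt_sum_of_nonempty ?_ hlt
        rw [Finset.nonempty_Ioc]
        omega
      have e3 : ∑ n ∈ Ioc a (a + h), F n ≤ ∑ n ∈ Ioo p q, F n := by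
        refine Finset.sum_le_sum_of_subset_of_nonneg ?_ fun n _ _ => h0 n
        intro n hn
        rw [Finset.mem_Ioc] at hn
        rw [Finset.mem_Ioo]
        omega
      linarith
    obtain ⟨p', hp1, hp2, hp3⟩ := hfind p le_rfl (by omega)
    obtain ⟨q', hq1, hq2, hq3⟩ := hfind (q - h - 1) (by omega) (by omega)
    obtain ⟨n, hn1, hn2, hn3⟩ := ih p' q' (by omega) (by omega) (by omega) hp3 hq3
    exact ⟨n, by omega, by omega, hn3⟩

variable {V I : Type} [Fintype V] [Fintype I] {s t : I → V}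

omit [Fintype V] in
lemma Bk_le {σ : ℤ × V → ℝ} (hσ : Pm σ) (n : ℤ) : Bk s t σ n ≤ 2 * Fintype.card I := by
  unfold Bk
  calc ∑ i, |σ (n, s i) - σ (n, t i)| ≤ ∑ _i : I, (2 : ℝ) := Finset.sum_le_sum fun i _ => by
        rcases hσ (n, s i) with h1 | h1 <;> rcases hσ (n, t i) with h2 | h2 <;>
          rw [h1, h2] <;> norm_num
    _ = 2 * Fintype.card I := by
        rw [Finset.sum_const, Finset.card_univ, nsmul_eq_mul, mul_comm]

omit [Fintype V] in
lemma Bk_zero {σ : ℤ × V → ℝ} (hσ : Pm σ) {n : ℤ} (h : Bk s t σ n < 2) :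
    ∀ i, σ (n, s i) = σ (n, t i) := by
  intro i
  by_contra hne
  have h1 : |σ (n, s i) - σ (n, t i)| = 2 := by
    rcases hσ (n, s i) with h1 | h1 <;> rcases hσ (n, t i) with h2 | h2 <;> rw [h1, h2] at hne ⊢ <;>
      first | exact absurd rfl hne | norm_num
  have h2 : |σ (n, s i) - σ (n, t i)| ≤ Bk s t σ n :=
    Finset.single_le_sum (f := fun i => |σ (n, s i) - σ (n, t i)|) (fun _ _ => abs_nonneg _)
      (Finset.mem_univ i)
  linarith

/-- A common constant slice. -/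
theorem common {ε : V → ℝ} (hε : AltS s t ε) {J : ℤ × (V ⊕ I) → ℝ} {P Q : ℤ} {x1 y2 δ : ℝ}
    (hx1 : 0 < x1) (hxy : x1 < y2) (hδ0 : 0 ≤ δ)
    (hJ1 : ∀ n, P ≤ n → n < Q → ∀ y, |J (n, Sum.inl y) - ε y * x1| ≤ δ)
    (hJ2 : ∀ n, P < n → n < Q → ∀ i, y2 ≤ J (n, Sum.inr i))
    (hδ : 4 * δ * Fintype.card V * (Q - P) ≤ x1) {h j : ℕ}
    (hh : 16 * (x1 / (y2 - x1)) ≤ h) (hpos : 0 < h) (hj : 4 * Fintype.card I ≤ 2 ^ j)
    (hPQ : (2 * (h : ℤ) + 2) * j ≤ Q - P)
    {σ τ : ℤ × V → ℝ} (hσ : GrOn s t J σ P Q) (hτ : GrOn s t J τ P Q) :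
    ∃ n, P ≤ n ∧ n ≤ Q ∧ ∀ i, σ (n, s i) = σ (n, t i) ∧ τ (n, s i) = τ (n, t i) := by
  have hyx : 0 < y2 - x1 := by linarith
  have hF0 : ∀ n, 0 ≤ Bk s t σ n + Bk s t τ n := fun n => add_nonneg (Bk_nonneg _ _) (Bk_nonneg _ _)
  have hj' : (4 : ℝ) * Fintype.card I ≤ 2 ^ j := by exact_mod_cast hj
  obtain ⟨n, h1, h2, h3⟩ := exists_zero (F := fun n => Bk s t σ n + Bk s t τ n) hF0 (fun n hn => by
      have e1 : Bk s t σ n < 2 := by linarith [Bk_nonneg (s := s) (t := t) τ n]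
      have e2 : Bk s t τ n < 2 := by linarith [Bk_nonneg (s := s) (t := t) σ n]
      have e3 := Bk_zero hσ.1 e1
      have e4 := Bk_zero hτ.1 e2
      show Bk s t σ n + Bk s t τ n = 0
      unfold Bk
      simp [e3, e4]) (P := P) (Q := Q) hh hpos (fun p q hp hpq hq => by
      have e1 := slab hε hx1.le hp hpq hq (fun n h1 h2 => hJ1 n (by omega) (by omega))
        (fun n h1 h2 => hJ2 n (by omega) (by omega)) hσ
      have e2 := slab hε hx1.le hp hpq hq (fun n h1 h2 => hJ1 n (by omega) (by omega))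
        (fun n h1 h2 => hJ2 n (by omega) (by omega)) hτ
      have e3 : 4 * δ * Fintype.card V * ((q : ℝ) - p) ≤ x1 := by
        refine le_trans ?_ hδ
        apply mul_le_mul_of_nonneg_left _ (by positivity)
        have g1 : (q : ℝ) ≤ Q := by exact_mod_cast hq
        have g2 : (P : ℝ) ≤ p := by exact_mod_cast hp
        linarith
      rw [div_mul_eq_mul_div, le_div_iff₀ hyx, Finset.sum_add_distrib]
      linarith) j P Q le_rfl le_rfl hPQ
      (by have a1 := Bk_le (s := s) (t := t) hσ.1 P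
          have a2 := Bk_le (s := s) (t := t) hτ.1 P
          show Bk s t σ P + Bk s t τ P ≤ _
          linarith)
      (by have a1 := Bk_le (s := s) (t := t) hσ.1 Q
          have a2 := Bk_le (s := s) (t := t) hτ.1 Q
          show Bk s t σ Q + Bk s t τ Q ≤ _
          linarith)
  refine ⟨n, h1, h2, fun i => ⟨?_, ?_⟩⟩
  · exact Bk_zero hσ.1 (by linarith [Bk_nonneg (s := s) (t := t) τ n, Bk_nonneg (s := s) (t := t) σ n]) i
  · exact Bk_zero hτ.1 (by linarith [Bk_nonneg (s := s) (t := t) τ n, Bk_nonneg (s := s) (t := t) σ n]) i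

end Pool.Agent.L5helper86.EA
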