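import Pool.Agent.L5helper86.EA.Num2

/-!
# Long stretches of constant width
-/

set_option autoImplicit false

open Finset

namespace Pool.Agent.L5helper86.EA

open Pool.Agent.TH761.EA Pool.Agent.TH761.EB

lemma Ux_le {k : ℕ} (hk : 1 ≤ k) : ∃ D : ℝ, 0 < D ∧ ∀ m : ℕ,
    Ux k m ≤ 1 + D * ((m : ℝ) ^ k * Real.log ((m : ℝ) + 1) ^ 2) := by
  have hl2 : 0 < Real.log 2 := Real.log_pos (by norm_num)
  set e0 : ℝ := 1 / Real.log 2 + 1 with he0
  have he0p : 0 < e0 := by positivity
  refine ⟨2 ^ k * e0 ^ 2, by positivity, fun m => ?_⟩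
  rcases Nat.eq_zero_or_pos m with h0 | hpos
  · subst h0
    unfold Ux
    have : k ≠ 0 := by omega
    simp [this]
  · have hm1 : (1 : ℝ) ≤ m := by exact_mod_cast hpos
    have hl : Real.log 2 ≤ Real.log ((m : ℝ) + 1) := Real.log_le_log (by norm_num) (by linarith)
    have h1 : 1 + Real.log ((m : ℝ) + 1) ≤ e0 * Real.log ((m : ℝ) + 1) := by
      have : 1 ≤ 1 / Real.log 2 * Real.log ((m : ℝ) + 1) := by
        rw [div_mul_eq_mul_div, one_mul, le_div_iff₀ hl2, one_mul]
        exact hl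
      rw [he0, add_mul, one_mul]
      linarith
    have h2 : ((m : ℝ) + 1) ^ k ≤ 2 ^ k * (m : ℝ) ^ k := by
      rw [← mul_pow]
      exact pow_le_pow_left₀ (by positivity) (by linarith) k
    have h3 : (1 + Real.log ((m : ℝ) + 1)) ^ 2 ≤ (e0 * Real.log ((m : ℝ) + 1)) ^ 2 :=
      pow_le_pow_left₀ (by linarith) h1 2
    unfold Ux
    calc ((m : ℝ) + 1) ^ k * (1 + Real.log ((m : ℝ) + 1)) ^ 2 ≤
        (2 ^ k * (m : ℝ) ^ k) * (e0 * Real.log ((m : ℝ) + 1)) ^ 2 :=
          mul_le_mul h2 h3 (by positivity) (by positivity)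
      _ = 2 ^ k * e0 ^ 2 * ((m : ℝ) ^ k * Real.log ((m : ℝ) + 1) ^ 2) := by ring
      _ ≤ _ := by linarith

lemma Ux_mono (k : ℕ) {m m' : ℕ} (h : m ≤ m') : Ux k m ≤ Ux k m' := by
  have h1 : (m : ℝ) ≤ m' := by exact_mod_cast h
  have hm : (0 : ℝ) ≤ m := Nat.cast_nonneg m
  have h2 : Real.log ((m : ℝ) + 1) ≤ Real.log ((m' : ℝ) + 1) :=
    Real.log_le_log (by linarith) (by linarith)
  have h3 := one_le_u m
  unfold Ux
  exact mul_le_mul (pow_le_pow_left₀ (by linarith) (by linarith) k)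
    (pow_le_pow_left₀ (by linarith) (by linarith) 2) (by positivity) (by positivity)

/-- long stretches of constant width -/
def Long2 (k : ℕ) (C0 : ℝ) (w : ℕ → ℕ) : Prop :=
  ∀ (T : ℝ) (n0 : ℕ), ∃ a : ℕ, n0 ≤ a ∧ ∀ i : ℕ, a ≤ i →
    (i : ℝ) ≤ a + T * Real.exp (C0 * Ux k (w a)) → w i = w a

theorem long2 {k : ℕ} (hk : 1 ≤ k) {C0 : ℝ} (hC0 : 0 ≤ C0) : ∃ c : ℝ, 0 < c ∧ ∀ w : ℕ → ℕ,
    Monotone w →
    (∀ᶠ n : ℕ in Filter.atTop,
      (w n : ℝ) ^ k * Real.log ((w n : ℝ) + 1) ^ 2 ≤ c * Real.log n) → Long2 k C0 w := by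
  classical
  obtain ⟨D, hD, hUD⟩ := Ux_le hk
  have hl2 : 0 < Real.log 2 := Real.log_pos (by norm_num)
  set c1 : ℝ := 1 / (16 * (C0 + 1) * D) with hc1
  set c2 : ℝ := Real.log 2 ^ 2 / 8 with hc2
  have hc1p : 0 < c1 := by positivity
  have hc2p : 0 < c2 := by positivity
  refine ⟨min c1 c2, lt_min hc1p hc2p, fun w hw hgr => ?_⟩
  intro T0 n0
  set T : ℝ := max T0 1 with hT
  have hT1 : 1 ≤ T := le_max_right _ _
  have h2 : ∀ᶠ n : ℕ in Filter.atTop, 8 * (Real.log T + C0 + 1) ≤ Real.log n :=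
    (Real.tendsto_log_atTop.comp tendsto_natCast_atTop_atTop).eventually_ge_atTop _
  obtain ⟨n1, hn1⟩ := Filter.eventually_atTop.1 (hgr.and h2)
  set n : ℕ := max (max n0 n1) 5 with hn
  have hnn0 : n0 ≤ n := (le_max_left _ _).trans (le_max_left _ _)
  have hnn1 : n1 ≤ n := (le_max_right _ _).trans (le_max_left _ _)
  have hn5 : 5 ≤ n := le_max_right _ _
  have hn5' : (5 : ℝ) ≤ n := by exact_mod_cast hn5
  set y : ℝ := Real.log n with hy
  have hyB : 8 * (Real.log T + C0 + 1) ≤ y := (hn1 n hnn1).2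
  have hlT : 0 ≤ Real.log T := Real.log_nonneg hT1
  have hyp : 0 < y := by linarith
  have hexpy : Real.exp y = n := Real.exp_log (by linarith)
  have h2n := (hn1 (2 * n) (by omega)).1
  have hlog2 : Real.log ((2 * n : ℕ) : ℝ) ≤ 2 * y := by
    push_cast
    rw [Real.log_mul (by norm_num) (by linarith)]
    have : Real.log 2 ≤ y := Real.log_le_log (by norm_num) (by linarith)
    linarith
  have hlog2p : 0 < Real.log ((2 * n : ℕ) : ℝ) := by
    apply Real.log_pos
    push_cast; linarith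
  set W : ℝ := (w (2 * n) : ℝ) with hW
  have hW0 : 0 ≤ W := Nat.cast_nonneg _
  set G : ℝ := W ^ k * Real.log (W + 1) ^ 2 with hG
  have hG0 : 0 ≤ G := by positivity
  have hG1 : G ≤ c1 * (2 * y) := h2n.trans
    (mul_le_mul (min_le_left _ _) hlog2 hlog2p.le hc1p.le)
  have hG2 : G ≤ c2 * (2 * y) := h2n.trans
    (mul_le_mul (min_le_right _ _) hlog2 hlog2p.le hc2p.le)
  have hkey : T * Real.exp (C0 * Ux k (w (2 * n))) ≤ Real.exp (y / 4) := by
    have e1 : Ux k (w (2 * n)) ≤ 1 + D * G := hUD _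
    have e2 : C0 * Ux k (w (2 * n)) ≤ C0 * (1 + D * (c1 * (2 * y))) :=
      mul_le_mul_of_nonneg_left (e1.trans (by nlinarith)) hC0
    have e3 : C0 * (D * (c1 * (2 * y))) ≤ y / 8 := by
      have : C0 * (D * (c1 * (2 * y))) = (C0 / (C0 + 1)) * (y / 8) := by
        rw [hc1]; field_simp; ring
      rw [this]
      apply mul_le_of_le_one_left (by linarith)
      rw [div_le_one (by linarith)]; linarith
    have e4 : T = Real.exp (Real.log T) := (Real.exp_log (by linarith)).symm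
    rw [e4, ← Real.exp_add]
    apply Real.exp_le_exp.2
    linarith
  have hWy : W + 1 ≤ Real.exp (y / 4) := by
    have e1 : W ≤ y / 4 := by
      rcases Nat.eq_zero_or_pos (w (2 * n)) with h0 | hpos
      · rw [hW, h0]
        simp only [Nat.cast_zero]
        linarith
      · have hW1 : (1 : ℝ) ≤ W := by rw [hW]; exact_mod_cast hpos
        have g1 : W ≤ W ^ k := le_self_pow₀ hW1 (by omega)
        have g2 : Real.log 2 ^ 2 ≤ Real.log (W + 1) ^ 2 :=
          pow_le_pow_left₀ hl2.le (Real.log_le_log (by norm_num) (by linarith)) 2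
        have g3 : W * Real.log 2 ^ 2 ≤ G := by
          rw [hG]
          exact mul_le_mul g1 g2 (by positivity) (by positivity)
        have g4 : W * Real.log 2 ^ 2 ≤ (y / 4) * Real.log 2 ^ 2 := by
          rw [hc2] at hG2
          linarith
        exact le_of_mul_le_mul_right g4 (by positivity)
    linarith [Real.add_one_le_exp (y / 4)]
  set b : ℕ := ⌈Real.exp (y / 4)⌉₊ with hb
  have hb1 : Real.exp (y / 4) ≤ b := Nat.le_ceil _
  have hb2 : (b : ℝ) < Real.exp (y / 4) + 1 := Nat.ceil_lt_add_one (Real.exp_pos _).le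
  have hcount : (w (2 * n) + 1) * b < n := by
    have e0 : 1 ≤ Real.exp (y / 4) := Real.one_le_exp (by positivity)
    have e1 : (W + 1) * b ≤ Real.exp (y / 4) * (2 * Real.exp (y / 4)) :=
      mul_le_mul hWy (by linarith) (Nat.cast_nonneg _) (Real.exp_pos _).le
    have e2 : Real.exp (y / 4) * Real.exp (y / 4) = Real.exp (y / 2) := by
      rw [← Real.exp_add]; congr 1; ring
    have e3 : Real.exp (y / 2) * Real.exp (y / 2) = n := by
      rw [← Real.exp_add, ← hexpy]; congr 1; ring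
    have e4 : 2 < Real.exp (y / 2) := by
      by_contra hc
      push Not at hc
      have : Real.exp (y / 2) * Real.exp (y / 2) ≤ 2 * 2 :=
        mul_le_mul hc hc (Real.exp_pos _).le (by norm_num)
      linarith
    have e5 : (W + 1) * b < n := by nlinarith [Real.exp_pos (y / 2)]
    have e6 : (((w (2 * n) + 1) * b : ℕ) : ℝ) < n := by push_cast; exact e5
    exact_mod_cast e6
  obtain ⟨m, hm, hcard⟩ := Finset.exists_lt_card_fiber_of_mul_lt_card_of_maps_to
    (s := Finset.Ico n (2 * n)) (t := Finset.range (w (2 * n) + 1)) (f := w) (n := b)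
    (fun i hi => Finset.mem_range.2 (Nat.lt_succ_of_le (hw (Finset.mem_Ico.1 hi).2.le)))
    (by rw [Finset.card_range, Nat.card_Ico]; omega)
  set F := (Finset.Ico n (2 * n)).filter (fun i => w i = m) with hF
  have hFne : F.Nonempty := Finset.card_pos.1 (by omega)
  set a := F.min' hFne with ha
  have haF : a ∈ F := Finset.min'_mem _ _
  have haF' := Finset.mem_filter.1 haF
  have haI := Finset.mem_Ico.1 haF'.1
  obtain ⟨j, hjF, hj⟩ : ∃ j ∈ F, a + b ≤ j := by
    by_contra hcon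
    push Not at hcon
    have hsub : F ⊆ Finset.Ico a (a + b) := fun i hi =>
      Finset.mem_Ico.2 ⟨Finset.min'_le _ _ hi, hcon i hi⟩
    have := Finset.card_le_card hsub
    rw [Nat.card_Ico] at this
    omega
  have hjF' := (Finset.mem_filter.1 hjF).2
  refine ⟨a, by omega, fun i hi hi2 => ?_⟩
  have hexp : T0 * Real.exp (C0 * Ux k (w a)) ≤ b := by
    have g1 : Real.exp (C0 * Ux k (w a)) ≤ Real.exp (C0 * Ux k (w (2 * n))) :=
      Real.exp_le_exp.2 (mul_le_mul_of_nonneg_left (Ux_mono k (hw haI.2.le)) hC0)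
    have g2 : T0 * Real.exp (C0 * Ux k (w a)) ≤ T * Real.exp (C0 * Ux k (w a)) :=
      mul_le_mul_of_nonneg_right (le_max_left _ _) (Real.exp_pos _).le
    have g3 : T * Real.exp (C0 * Ux k (w a)) ≤ T * Real.exp (C0 * Ux k (w (2 * n))) :=
      mul_le_mul_of_nonneg_left g1 (by linarith)
    linarith
  have hij : i ≤ j := by
    have : (i : ℝ) ≤ a + b := by linarith
    have : i ≤ a + b := by exact_mod_cast this
    omega
  have e1 := hw hi
  have e2 := hw hij
  rw [hjF'] at e2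
  rw [haF'.2] at e1 ⊢
  omega

end Pool.Agent.L5helper86.EA
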