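import Pool.Agent.L5helper86.EA.Ev

/-!
# The numerical estimate
-/

set_option autoImplicit false

open Finset

namespace Pool.Agent.L5helper86.EA

theorem numeric' (k a : ℕ) {c β : ℝ} (hc : 0 < c) (hc1 : c ≤ 1) (hβ : 0 < β) (hβ1 : β ≤ 1) :
    ∃ c' : ℝ, 0 < c' ∧ ∀ w : ℕ → ℕ,
      (∀ᶠ n : ℕ in Filter.atTop, (w n : ℝ) ^ k * Real.log ((w n : ℝ) + 1) ≤ c' * Real.log n) →
      ∀ᶠ n : ℕ in Filter.atTop,
        1 / (n : ℝ) ≤ (β * dl c (w n) ^ a) ^ ((2 + k) * (2 * w n + 1) ^ k) := by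
  set A0 : ℝ := -Real.log β + a * Real.log (4 / c) with hA0
  have hlb : Real.log β ≤ 0 := Real.log_nonpos hβ.le hβ1
  have hl4 : 0 ≤ Real.log (4 / c) := by
    apply Real.log_nonneg
    rw [le_div_iff₀ hc]; linarith
  have hA0p : 0 ≤ A0 := by
    have : 0 ≤ (a : ℝ) * Real.log (4 / c) := by positivity
    linarith
  have hl2 : 0 < Real.log 2 := Real.log_pos (by norm_num)
  set K : ℝ := (2 + k) * 3 ^ k * (A0 / Real.log 2 + a) with hK
  have hKp : 0 ≤ K := by positivity
  set K0 : ℝ := (2 + k) * A0 with hK0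
  -- the exponent
  have hexp : ∀ m : ℕ, ((2 + k) * (2 * m + 1) ^ k : ℝ) * -Real.log (β * dl c m ^ a) ≤
      K0 + K * ((m : ℝ) ^ k * Real.log ((m : ℝ) + 1)) := by
    intro m
    have hm0 : (0 : ℝ) ≤ m := Nat.cast_nonneg m
    have hdl : 0 < dl c m := by unfold dl; positivity
    have h1 : -Real.log (β * dl c m ^ a) = -Real.log β + a * Real.log ((4 * m + 3) / c) := by
      rw [Real.log_mul hβ.ne' (pow_pos hdl a).ne', Real.log_pow]
      have : Real.log (dl c m) = -Real.log ((4 * m + 3) / c) := by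
        rw [← Real.log_inv]
        congr 1
        unfold dl
        rw [inv_div]
      rw [this]; ring
    have h2 : Real.log ((4 * m + 3) / c) ≤ Real.log (4 / c) + Real.log ((m : ℝ) + 1) := by
      rw [← Real.log_mul (by positivity) (by positivity)]
      apply Real.log_le_log (by positivity)
      rw [div_mul_eq_mul_div]
      gcongr
      linarith
    have hlm : 0 ≤ Real.log ((m : ℝ) + 1) := Real.log_nonneg (by linarith)
    have ha0 : (0 : ℝ) ≤ a := Nat.cast_nonneg a
    rcases Nat.eq_zero_or_pos m with h0 | hpos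
    · subst h0
      rw [h1]
      have h3 := mul_le_mul_of_nonneg_left h2 ha0
      simp only [Nat.cast_zero, zero_add, Real.log_one, mul_zero, add_zero, one_pow, mul_one]
        at h3 ⊢
      have h4 : -Real.log β + a * Real.log (3 / c) ≤ A0 := by rw [hA0]; linarith
      have h5 : (0 : ℝ) ≤ 2 + k := by positivity
      exact mul_le_mul_of_nonneg_left h4 h5
    · have hm1 : (1 : ℝ) ≤ m := by exact_mod_cast hpos
      have hl : Real.log 2 ≤ Real.log ((m : ℝ) + 1) :=
        Real.log_le_log (by norm_num) (by linarith)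
      have h3 : -Real.log (β * dl c m ^ a) ≤ (A0 / Real.log 2 + a) * Real.log ((m : ℝ) + 1) := by
        rw [h1]
        have h4 := mul_le_mul_of_nonneg_left h2 ha0
        have h5 : A0 ≤ A0 / Real.log 2 * Real.log ((m : ℝ) + 1) := by
          rw [div_mul_eq_mul_div, le_div_iff₀ hl2]
          exact mul_le_mul_of_nonneg_left hl hA0p
        have h6 : (A0 / Real.log 2 + a) * Real.log ((m : ℝ) + 1) =
          A0 / Real.log 2 * Real.log ((m : ℝ) + 1) + a * Real.log ((m : ℝ) + 1) := by ring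
        rw [h6]
        rw [hA0] at h5 ⊢
        linarith
      have h4 : (2 * (m : ℝ) + 1) ^ k ≤ 3 ^ k * (m : ℝ) ^ k := by
        rw [← mul_pow]
        exact pow_le_pow_left₀ (by positivity) (by linarith) k
      have h5 : ((2 + k) * (2 * m + 1) ^ k : ℝ) ≤ (2 + k) * (3 ^ k * (m : ℝ) ^ k) :=
        mul_le_mul_of_nonneg_left h4 (by positivity)
      have h6 : 0 ≤ (A0 / Real.log 2 + a) * Real.log ((m : ℝ) + 1) := by positivity
      have h7 : ((2 + k) * (2 * m + 1) ^ k : ℝ) * -Real.log (β * dl c m ^ a) ≤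
          ((2 + k) * (2 * m + 1) ^ k : ℝ) * ((A0 / Real.log 2 + a) * Real.log ((m : ℝ) + 1)) :=
        mul_le_mul_of_nonneg_left h3 (by positivity)
      have h8 : ((2 + k) * (2 * m + 1) ^ k : ℝ) * ((A0 / Real.log 2 + a) * Real.log ((m : ℝ) + 1)) ≤
          (2 + k) * (3 ^ k * (m : ℝ) ^ k) * ((A0 / Real.log 2 + a) * Real.log ((m : ℝ) + 1)) :=
        mul_le_mul_of_nonneg_right h5 h6
      have h9 : (2 + k) * (3 ^ k * (m : ℝ) ^ k) * ((A0 / Real.log 2 + a) * Real.log ((m : ℝ) + 1)) =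
          K * ((m : ℝ) ^ k * Real.log ((m : ℝ) + 1)) := by rw [hK]; ring
      have h10 : 0 ≤ K0 := by positivity
      linarith
  refine ⟨1 / (2 * (K + 1)), by positivity, fun w hw => ?_⟩
  have hlim : ∀ᶠ n : ℕ in Filter.atTop, 2 * K0 ≤ Real.log n :=
    (Real.tendsto_log_atTop.comp tendsto_natCast_atTop_atTop).eventually_ge_atTop _
  filter_upwards [hw, hlim, Filter.eventually_ge_atTop 1] with n h1 h2 h3
  have hn : (1 : ℝ) ≤ n := by exact_mod_cast h3
  have hnp : (0 : ℝ) < n := by linarith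
  have hln : 0 ≤ Real.log n := Real.log_nonneg hn
  have hdl : 0 < dl c (w n) := by unfold dl; positivity
  have hq : 0 < β * dl c (w n) ^ a := by positivity
  have h4 := hexp (w n)
  have h5 : K * ((w n : ℝ) ^ k * Real.log ((w n : ℝ) + 1)) ≤ Real.log n / 2 := by
    have e1 := mul_le_mul_of_nonneg_left h1 hKp
    have e2 : K * (1 / (2 * (K + 1)) * Real.log n) ≤ Real.log n / 2 := by
      have e3 : K * (1 / (2 * (K + 1)) * Real.log n) = (K / (K + 1)) * (Real.log n / 2) := by
        field_simp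
      rw [e3]
      have e4 : K / (K + 1) ≤ 1 := by
        rw [div_le_one (by positivity)]; linarith
      exact mul_le_of_le_one_left (by linarith) e4
    linarith
  have h6 : (β * dl c (w n) ^ a) ^ ((2 + k) * (2 * w n + 1) ^ k) =
      Real.exp (-(((2 + k) * (2 * (w n : ℝ) + 1) ^ k : ℝ) * -Real.log (β * dl c (w n) ^ a))) := by
    rw [mul_neg, neg_neg]
    have e1 : ((2 + k) * (2 * (w n : ℝ) + 1) ^ k : ℝ) =
        (((2 + k) * (2 * w n + 1) ^ k : ℕ) : ℝ) := by push_cast; ring
    rw [e1, Real.exp_nat_mul, Real.exp_log hq]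
  rw [h6]
  have h7 : 1 / (n : ℝ) = Real.exp (-Real.log n) := by
    rw [Real.exp_neg, Real.exp_log hnp, one_div]
  rw [h7]
  apply Real.exp_le_exp.2
  linarith

end Pool.Agent.L5helper86.EA
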