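import Pool.Agent.L5helper86.EA.Tr2

/-!
# Numerical estimates for frustrated slabs, and long stretches of constant width
-/

set_option autoImplicit false

open Finset

namespace Pool.Agent.L5helper86.EA

open Pool.Agent.TH761.EA Pool.Agent.TH761.EB

/-- the exponent -/
noncomputable def Ux (k m : ℕ) : ℝ := ((m : ℝ) + 1) ^ k * (1 + Real.log ((m : ℝ) + 1)) ^ 2

lemma one_le_u (m : ℕ) : 1 ≤ 1 + Real.log ((m : ℝ) + 1) := by
  have hm : (0 : ℝ) ≤ m := Nat.cast_nonneg m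
  linarith [Real.log_nonneg (by linarith : (1 : ℝ) ≤ (m : ℝ) + 1)]

lemma one_le_v (k m : ℕ) : 1 ≤ ((m : ℝ) + 1) ^ k := by
  have hm : (0 : ℝ) ≤ m := Nat.cast_nonneg m
  exact one_le_pow₀ (by linarith)

lemma u_le_Ux (k m : ℕ) : 1 + Real.log ((m : ℝ) + 1) ≤ Ux k m := by
  have hu := one_le_u m
  have hv := one_le_v k m
  unfold Ux
  nlinarith [mul_le_mul hv (one_le_pow₀ (n := 2) hu) zero_le_one (by linarith)]

theorem numeric2 (k h : ℕ) {x' β : ℝ} (hx : 0 < x') (hx1 : x' ≤ 1) (hβ : 0 < β) (hβ1 : β ≤ 1) :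
    ∃ C0 : ℝ, 0 ≤ C0 ∧ ∀ t : ℕ, ∃ T : ℝ, 0 < T ∧ ∀ m : ℕ, ∃ L j M : ℕ,
      4 * Fintype.card (Bi k m) ≤ 2 ^ j ∧ (2 * h + 2) * j ≤ 2 * L + 1 ∧
      (t : ℝ) ≤ M * (β * (x' / (4 * Fintype.card (Bx k m) * (2 * L + 1))) ^ 2) ^
        ((2 * L + 2) * Fintype.card (Bx k m ⊕ Bi k m)) ∧
      ((M : ℝ) + 2) * (2 * L + 2) ≤ T * Real.exp (C0 * Ux k m) := by
  have hl2 : 0 < Real.log 2 := Real.log_pos (by norm_num)
  set w0 : ℝ := 4 * (k + 1) * 2 ^ k with hw0
  have hw01 : 1 ≤ w0 := by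
    have h2 : (1 : ℝ) ≤ 2 ^ k := one_le_pow₀ (by norm_num)
    have hk0 : (0 : ℝ) ≤ k := Nat.cast_nonneg k
    rw [hw0]
    nlinarith
  have hlw0 : 0 ≤ Real.log w0 := Real.log_nonneg hw01
  set a0 : ℝ := (Real.log w0 + k) / Real.log 2 with ha0
  have ha0p : 0 ≤ a0 := by positivity
  set K1 : ℝ := 2 * (h + 1) * (a0 + 1) + 2 with hK1
  have hK1p : 2 ≤ K1 := by
    have : 0 ≤ 2 * ((h : ℝ) + 1) * (a0 + 1) := by positivity
    linarith
  set K2 : ℝ := K1 * ((1 + k) * 2 ^ k) with hK2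
  set K3 : ℝ := 4 * 2 ^ k * K1 / x' with hK3
  have hK31 : 1 ≤ K3 := by
    rw [hK3, le_div_iff₀ hx]
    have h2 : (1 : ℝ) ≤ 2 ^ k := one_le_pow₀ (by norm_num)
    nlinarith
  have hlK3 : 0 ≤ Real.log K3 := Real.log_nonneg hK31
  have hlβ : 0 ≤ -Real.log β := by
    have := Real.log_nonpos hβ.le hβ1
    linarith
  set K4 : ℝ := -Real.log β + 2 * (Real.log K3 + k + 1) with hK4
  have hK4p : 0 ≤ K4 := by positivity
  set K5 : ℝ := K2 * K4 with hK5
  have hK5p : 0 ≤ K5 := by positivity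
  refine ⟨K5 + 1, by linarith, fun t => ⟨(t + 3) * K1, by positivity, fun m => ?_⟩⟩
  set u : ℝ := 1 + Real.log ((m : ℝ) + 1) with hu
  set v : ℝ := ((m : ℝ) + 1) ^ k with hv
  have hm0 : (0 : ℝ) ≤ m := Nat.cast_nonneg m
  have hm1 : (0 : ℝ) < (m : ℝ) + 1 := by linarith
  have hlm : 0 ≤ Real.log ((m : ℝ) + 1) := Real.log_nonneg (by linarith)
  have hu1 : 1 ≤ u := one_le_u m
  have hv1 : 1 ≤ v := one_le_v k m
  have hUx : Ux k m = v * u ^ 2 := rfl
  have hbx : ((2 * m + 1 : ℕ) : ℝ) ^ k ≤ 2 ^ k * v := by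
    rw [hv, ← mul_pow]
    apply pow_le_pow_left₀ (by positivity)
    push_cast; linarith
  set j : ℕ := ⌈a0 * u⌉₊ with hj
  have hj1 : a0 * u ≤ j := Nat.le_ceil _
  have hj2 : (j : ℝ) < a0 * u + 1 := Nat.ceil_lt_add_one (by positivity)
  set L : ℕ := (h + 1) * j with hL
  have hLr : (L : ℝ) = (h + 1) * j := by rw [hL]; push_cast; ring
  have hq : 2 * (L : ℝ) + 2 ≤ K1 * u := by
    have e1 : (j : ℝ) ≤ (a0 + 1) * u := by nlinarith
    have e2 : ((h : ℝ) + 1) * j ≤ (h + 1) * ((a0 + 1) * u) :=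
      mul_le_mul_of_nonneg_left e1 (by positivity)
    rw [hLr, hK1]
    nlinarith
  have hcard : (Fintype.card (Bx k m ⊕ Bi k m) : ℝ) ≤ (1 + k) * 2 ^ k * v := by
    have h1 : Fintype.card (Bx k m ⊕ Bi k m) ≤ (2 * m + 1) ^ k * (1 + k) := by
      rw [Fintype.card_sum, card_Bx]
      have := card_Bi k m
      linarith
    have h2 : (Fintype.card (Bx k m ⊕ Bi k m) : ℝ) ≤ ((2 * m + 1 : ℕ) : ℝ) ^ k * (1 + k) := by
      exact_mod_cast h1
    have h3 : ((2 * m + 1 : ℕ) : ℝ) ^ k * (1 + k) ≤ (2 ^ k * v) * (1 + k) :=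
      mul_le_mul_of_nonneg_right hbx (by positivity)
    linarith
  have hcBx : (Fintype.card (Bx k m) : ℝ) = ((2 * m + 1 : ℕ) : ℝ) ^ k := by
    rw [card_Bx]; push_cast; ring
  have hcBx1 : (1 : ℝ) ≤ (Fintype.card (Bx k m) : ℝ) := by
    rw [hcBx]
    apply one_le_pow₀
    push_cast; linarith
  set n : ℕ := (2 * L + 2) * Fintype.card (Bx k m ⊕ Bi k m) with hn
  have hn1 : (n : ℝ) ≤ K2 * (u * v) := by
    have h1 : (n : ℝ) = (2 * (L : ℝ) + 2) * Fintype.card (Bx k m ⊕ Bi k m) := by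
      rw [hn]; push_cast; ring
    rw [h1]
    refine (mul_le_mul hq hcard (by positivity) (by positivity)).trans (le_of_eq ?_)
    rw [hK2]; ring
  set q : ℝ := β * (x' / (4 * Fintype.card (Bx k m) * (2 * L + 1))) ^ 2 with hqd
  have hL0 : (0 : ℝ) ≤ L := Nat.cast_nonneg L
  have hden : 0 < 4 * (Fintype.card (Bx k m) : ℝ) * (2 * L + 1) := by positivity
  have hqp : 0 < q := by positivity
  have hlq : -Real.log q ≤ K4 * u := by
    have e1 : Real.log q = Real.log β - 2 * Real.log (4 * Fintype.card (Bx k m) * (2 * L + 1) / x') := by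
      rw [hqd, Real.log_mul hβ.ne' (by positivity), Real.log_pow]
      have : Real.log (x' / (4 * Fintype.card (Bx k m) * (2 * L + 1))) =
          -Real.log (4 * Fintype.card (Bx k m) * (2 * L + 1) / x') := by
        rw [← Real.log_inv, inv_div]
      rw [this]; push_cast; ring
    have e2 : 4 * (Fintype.card (Bx k m) : ℝ) * (2 * L + 1) / x' ≤ K3 * (v * u) := by
      rw [div_le_iff₀ hx]
      have g1 : (2 * (L : ℝ) + 1) ≤ K1 * u := by linarith
      have g2 : 4 * (Fintype.card (Bx k m) : ℝ) ≤ 4 * (2 ^ k * v) := by rw [hcBx]; linarith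
      have g3 := mul_le_mul g2 g1 (by positivity) (by positivity)
      refine g3.trans (le_of_eq ?_)
      rw [hK3]; field_simp
    have e3 : Real.log (4 * Fintype.card (Bx k m) * (2 * L + 1) / x') ≤
        Real.log K3 + (k * Real.log ((m : ℝ) + 1) + Real.log u) := by
      refine (Real.log_le_log (by positivity) e2).trans (le_of_eq ?_)
      rw [Real.log_mul (by positivity) (by positivity), Real.log_mul (by positivity) (by positivity),
        hv, Real.log_pow]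
    have e4 : Real.log u ≤ u := (Real.log_le_sub_one_of_pos (by linarith)).trans (by linarith)
    have e5 : Real.log K3 + (k * Real.log ((m : ℝ) + 1) + Real.log u) ≤
        (Real.log K3 + k + 1) * u := by
      have g1 : Real.log K3 ≤ Real.log K3 * u := le_mul_of_one_le_right hlK3 hu1
      have g2 : (k : ℝ) * Real.log ((m : ℝ) + 1) ≤ k * u :=
        mul_le_mul_of_nonneg_left (by rw [hu]; linarith) (Nat.cast_nonneg k)
      linarith
    have e6 : -Real.log β ≤ -Real.log β * u := le_mul_of_one_le_right hlβ hu1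
    rw [e1, hK4]
    linarith
  have hpe : Real.exp (-(K5 * Ux k m)) ≤ q ^ n := by
    have h1 : q ^ n = Real.exp (-((n : ℝ) * -Real.log q)) := by
      rw [mul_neg, neg_neg, Real.exp_nat_mul, Real.exp_log hqp]
    rw [h1]
    apply Real.exp_le_exp.2
    have g1 : (n : ℝ) * -Real.log q ≤ n * (K4 * u) :=
      mul_le_mul_of_nonneg_left hlq (Nat.cast_nonneg n)
    have g2 : (n : ℝ) * (K4 * u) ≤ K2 * (u * v) * (K4 * u) :=
      mul_le_mul_of_nonneg_right hn1 (by positivity)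
    have g3 : K2 * (u * v) * (K4 * u) = K5 * Ux k m := by rw [hK5, hUx]; ring
    linarith
  set M : ℕ := ⌈(t : ℝ) * Real.exp (K5 * Ux k m)⌉₊ with hM
  have hM1 : (t : ℝ) * Real.exp (K5 * Ux k m) ≤ M := Nat.le_ceil _
  have hM2 : (M : ℝ) < (t : ℝ) * Real.exp (K5 * Ux k m) + 1 := Nat.ceil_lt_add_one (by positivity)
  have hUx0 : 0 ≤ Ux k m := by rw [hUx]; positivity
  refine ⟨L, j, M, ?_, ?_, ?_, ?_⟩
  · have h1 : (4 * Fintype.card (Bi k m) : ℝ) ≤ w0 * v := by
      have e1 : (Fintype.card (Bi k m) : ℝ) ≤ ((2 * m + 1 : ℕ) : ℝ) ^ k * k := by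
        exact_mod_cast card_Bi k m
      have e2 : ((2 * m + 1 : ℕ) : ℝ) ^ k * k ≤ 2 ^ k * v * k :=
        mul_le_mul_of_nonneg_right hbx (Nat.cast_nonneg k)
      have e3 : 2 ^ k * v * k ≤ 2 ^ k * v * (k + 1) :=
        mul_le_mul_of_nonneg_left (by linarith) (by positivity)
      rw [hw0]
      linarith
    have h2 : w0 * v ≤ (2 : ℝ) ^ j := by
      have e1 : w0 * v = Real.exp (Real.log w0 + k * Real.log ((m : ℝ) + 1)) := by
        rw [Real.exp_add, Real.exp_log (by linarith), Real.exp_nat_mul, Real.exp_log hm1, hv]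
      have e2 : (2 : ℝ) ^ j = Real.exp (j * Real.log 2) := by
        rw [Real.exp_nat_mul, Real.exp_log (by norm_num)]
      rw [e1, e2]
      apply Real.exp_le_exp.2
      have e3 : Real.log w0 + k * Real.log ((m : ℝ) + 1) ≤ (Real.log w0 + k) * u := by
        have g1 : Real.log w0 ≤ Real.log w0 * u := le_mul_of_one_le_right hlw0 hu1
        have g2 : (k : ℝ) * Real.log ((m : ℝ) + 1) ≤ k * u :=
          mul_le_mul_of_nonneg_left (by rw [hu]; linarith) (Nat.cast_nonneg k)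
        linarith
      have e4 : (Real.log w0 + k) * u = (a0 * u) * Real.log 2 := by
        rw [ha0]; field_simp
      rw [e4] at e3
      exact e3.trans (mul_le_mul_of_nonneg_right hj1 hl2.le)
    have h3 : ((4 * Fintype.card (Bi k m) : ℕ) : ℝ) ≤ ((2 ^ j : ℕ) : ℝ) := by
      push_cast
      exact h1.trans h2
    exact_mod_cast h3
  · rw [hL]
    have : (2 * h + 2) * j = 2 * ((h + 1) * j) := by ring
    omega
  · have h1 : (t : ℝ) = t * Real.exp (K5 * Ux k m) * Real.exp (-(K5 * Ux k m)) := by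
      rw [mul_assoc, ← Real.exp_add, add_neg_cancel, Real.exp_zero, mul_one]
    rw [h1]
    exact mul_le_mul hM1 hpe (Real.exp_pos _).le (Nat.cast_nonneg _)
  · have hE : 1 ≤ Real.exp (K5 * Ux k m) := Real.one_le_exp (by positivity)
    have ht0 : (0 : ℝ) ≤ t := Nat.cast_nonneg t
    have h1 : (M : ℝ) + 2 ≤ (t + 3) * Real.exp (K5 * Ux k m) := by nlinarith
    have h2 : 2 * (L : ℝ) + 2 ≤ K1 * Real.exp (Ux k m) := by
      refine hq.trans (mul_le_mul_of_nonneg_left ?_ (by linarith))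
      have := u_le_Ux k m
      linarith [Real.add_one_le_exp (Ux k m)]
    calc ((M : ℝ) + 2) * (2 * L + 2)
        ≤ ((t + 3) * Real.exp (K5 * Ux k m)) * (K1 * Real.exp (Ux k m)) :=
          mul_le_mul h1 h2 (by positivity) (by positivity)
      _ = (t + 3) * K1 * Real.exp ((K5 + 1) * Ux k m) := by
          have e1 : Real.exp ((K5 + 1) * Ux k m) =
              Real.exp (K5 * Ux k m) * Real.exp (Ux k m) := by
            rw [← Real.exp_add]; congr 1; ring
          rw [e1]; ring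

end Pool.Agent.L5helper86.EA
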