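import Pool.Agent.L5helper86.EA.Iso

/-!
# A slice with strong bonds inside and weak bonds around is constant in every ground state
-/

set_option autoImplicit false

open Finset

namespace Pool.Agent.L5helper86.EA

open Pool.Agent.TH761.EA Pool.Agent.TH761.EB

variable {k m : ℕ}

/-- the bonds touching the slice `z` -/
noncomputable def Tb (k m : ℕ) (z : ℤ) : Finset (ℤ × (Bx k m ⊕ Bi k m)) :=
  (univ.image fun c : Bx k m ⊕ Bi k m => (z, c)) ∪
    (univ.image fun y : Bx k m => (z - 1, (Sum.inl y : Bx k m ⊕ Bi k m)))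

lemma Tb_sum (z : ℤ) (g : ℤ × (Bx k m ⊕ Bi k m) → ℝ) :
    ∑ e ∈ Tb k m z, g e = ∑ y : Bx k m, g (z, Sum.inl y) + ∑ p : Bi k m, g (z, Sum.inr p) +
      ∑ y : Bx k m, g (z - 1, Sum.inl y) := by
  unfold Tb
  rw [Finset.sum_union, Finset.sum_image, Finset.sum_image, Fintype.sum_sum_type]
  · intro y _ y' _ h
    simpa using h
  · intro y _ y' _ h
    simpa using h
  · rw [Finset.disjoint_left]
    rintro ⟨n, c⟩ h1 h2
    simp only [Finset.mem_image, Finset.mem_univ, true_and, Prod.mk.injEq] at h1 h2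
    obtain ⟨_, h3, _⟩ := h1
    obtain ⟨_, h4, _⟩ := h2
    omega

theorem pin {w : ℕ → ℕ} {z : ℤ} (hz : 0 ≤ z) (hw : w z.toNat = m)
    {J : (Fin (k + 1) → ℤ) × Fin (k + 1) → ℝ} {c δ : ℝ} (hc : 0 < c)
    (hδ : 2 * δ * (2 * m + 1 : ℕ) < c)
    (hs : ∀ p : Bi k m, c ≤ J (ph (z, (Sum.inr p : Bx k m ⊕ Bi k m))))
    (ha : ∀ y : Bx k m, |J (ph (z, (Sum.inl y : Bx k m ⊕ Bi k m)))| ≤ δ)
    (hb : ∀ y : Bx k m, |J (ph (z - 1, (Sum.inl y : Bx k m ⊕ Bi k m)))| ≤ δ)
    {σ : (Fin (k + 1) → ℤ) → ℝ} (hσ : GS aa bb (horn k w) J σ) (x y : Bx k m) :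
    σ (pt z x) = σ (pt z y) := by
  classical
  have hmem : ∀ y : Bx k m, pt z y ∈ horn k w := fun y => mem_horn hz hw y
  have hpm : ∀ y : Bx k m, σ (pt z y) = 1 ∨ σ (pt z y) = -1 := fun y => hσ.1.1 _ (hmem y)
  have hle1 : ∀ v, |σ v| ≤ 1 := by
    intro v
    by_cases hv : v ∈ horn k w
    · rcases hσ.1.1 v hv with h | h <;> rw [h] <;> norm_num
    · rw [hσ.1.2 v hv]; norm_num
  by_contra hxy
  refine hxy (const_of_le (f := fun y => σ (pt z y)) hpm hc hδ (fun v hv => ?_) x y)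
  set ρ : (Fin (k + 1) → ℤ) → ℝ := fun u => if u 0 = z ∧ u ∈ horn k w then v else σ u with hρ
  have hρz : ∀ y : Bx k m, ρ (pt z y) = v := by
    intro y
    simp only [hρ, pt_zero, hmem y, and_self, if_true]
  have hρo : ∀ u, u 0 ≠ z → ρ u = σ u := by
    intro u hu
    simp only [hρ, hu, false_and, if_false]
  have hoff : ∀ u, ρ u ≠ σ u → u 0 = z ∧ u ∈ horn k w := by
    intro u hu
    by_contra hcn
    apply hu
    simp only [hρ, hcn, if_false]
  have hCρ : Cf (horn k w) ρ := by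
    refine ⟨fun u hu => ?_, fun u hu => ?_⟩
    · simp only [hρ]
      split_ifs
      · exact hv
      · exact hσ.1.1 u hu
    · have : ¬ (u 0 = z ∧ u ∈ horn k w) := fun h => hu h.2
      simp only [hρ, this, if_false]
      exact hσ.1.2 u hu
  have hpt : ∀ u, u 0 = z → u ∈ horn k w → pt z (pr m u) = u := by
    intro u hu hu2
    have := horn_pt (m := m) hu2 (by rw [hu]; exact hw)
    rw [hu] at this
    exact this
  have hfin : {u | ρ u ≠ σ u}.Finite := by
    refine (Finset.finite_toSet ((Finset.univ : Finset (Bx k m)).image (pt z))).subset ?_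
    intro u hu
    have h1 := hoff u hu
    rw [Finset.mem_coe, Finset.mem_image]
    exact ⟨pr m u, Finset.mem_univ _, hpt u h1.1 h1.2⟩
  have hne : ρ ≠ σ := by
    intro he
    apply hxy
    rw [← he, hρz, hρz]
  have hlt := hσ.2 ρ hCρ hfin hne
  have hfs : ∑ᶠ e, J e * (σ (aa e) * σ (bb e) - ρ (aa e) * ρ (bb e)) =
      ∑ e ∈ Tb k m z, J (ph e) * (σ (aa (ph e)) * σ (bb (ph e)) - ρ (aa (ph e)) * ρ (bb (ph e))) := by
    rw [finsum_eq_sum_of_support_subset (s := (Tb k m z).image ph)]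
    · rw [Finset.sum_image (fun x _ y _ h => ph_inj h)]
    · rintro ⟨u, i⟩ he
      rw [Function.mem_support] at he
      have hR : u ∈ horn k w ∧ u + Pi.single i 1 ∈ horn k w := by
        constructor
        · by_contra hcn
          apply he
          simp only [aa, hσ.1.2 u hcn, hCρ.2 u hcn, zero_mul, sub_self, mul_zero]
        · by_contra hcn
          apply he
          simp only [bb, hσ.1.2 _ hcn, hCρ.2 _ hcn, mul_zero, sub_self]
      have hor : ρ u ≠ σ u ∨ ρ (u + Pi.single i 1) ≠ σ (u + Pi.single i 1) := by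
        by_contra hcn
        push Not at hcn
        apply he
        simp only [aa, bb, hcn.1, hcn.2, sub_self, mul_zero]
      rw [Finset.mem_coe, Finset.mem_image]
      revert hR hor he
      refine Fin.cases ?_ (fun j => ?_) i
      · intro he hR hor
        have h1 : (u + (Pi.single 0 1 : Fin (k + 1) → ℤ)) 0 = u 0 + 1 := by simp
        rcases hor with h | h
        · have h2 := hoff _ h
          refine ⟨(z, Sum.inl (pr m u)), ?_, ?_⟩
          · unfold Tb
            exact Finset.mem_union_left _ (Finset.mem_image_of_mem _ (Finset.mem_univ _))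
          · simp only [ph]
            rw [hpt u h2.1 h2.2]
        · have h2 := hoff _ h
          refine ⟨(z - 1, Sum.inl (pr m u)), ?_, ?_⟩
          · unfold Tb
            exact Finset.mem_union_right _ (Finset.mem_image_of_mem
              (fun y : Bx k m => (z - 1, (Sum.inl y : Bx k m ⊕ Bi k m))) (Finset.mem_univ _))
          · simp only [ph]
            have h3 : u 0 = z - 1 := by rw [h1] at h2; omega
            have h4 : ∀ i : Fin k, |u i.succ| ≤ (m : ℤ) := by
              intro i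
              have h5 := h2.2.2 i
              have h6 : (u + (Pi.single 0 1 : Fin (k + 1) → ℤ)) i.succ = u i.succ := by
                simp
              rw [h6, h2.1, hw] at h5
              exact h5
            have h5 := pt_pr h4
            rw [h3] at h5
            rw [h5]
      · intro he hR hor
        have h1 : (u + (Pi.single j.succ 1 : Fin (k + 1) → ℤ)) 0 = u 0 := by
          have h0 : (0 : Fin (k + 1)) ≠ j.succ := (Fin.succ_ne_zero _).symm
          simp [h0]
        have h2 : u 0 = z := by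
          rcases hor with h | h
          · exact (hoff _ h).1
          · have := (hoff _ h).1; rwa [h1] at this
        have h4 := hR.2.2 j
        have h5 : (u + (Pi.single j.succ 1 : Fin (k + 1) → ℤ)) j.succ = u j.succ + 1 := by
          simp
        rw [h1, h5, h2, hw, abs_le] at h4
        have h6 := hR.1.2 j
        rw [h2, hw, abs_le] at h6
        refine ⟨(z, Sum.inr ⟨(pr m u, j), ?_⟩), ?_, ?_⟩
        · simp only [pr]
          rw [min_eq_right h6.2, max_eq_right h6.1]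
          omega
        · unfold Tb
          exact Finset.mem_union_left _ (Finset.mem_image_of_mem _ (Finset.mem_univ _))
        · simp only [ph]
          rw [hpt u h2 hR.1]
  rw [hfs, Tb_sum] at hlt
  -- bonds out of the slice
  have hdiff : ∀ (r s t : ℝ), |r| ≤ δ → |s| ≤ 1 → r * (t * s - v * s) ≤ δ * |v - t| := by
    intro r s t hr hs'
    have h1 : r * (t * s - v * s) ≤ |r * (t * s - v * s)| := le_abs_self _
    have h2 : |r * (t * s - v * s)| = |r| * |s| * |v - t| := by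
      rw [show r * (t * s - v * s) = -(r * s * (v - t)) by ring, abs_neg, abs_mul, abs_mul]
    rw [h2] at h1
    refine h1.trans (mul_le_mul_of_nonneg_right ?_ (abs_nonneg _))
    calc |r| * |s| ≤ δ * 1 := mul_le_mul hr hs' (abs_nonneg _) ((abs_nonneg _).trans hr)
      _ = δ := mul_one _
  have hA : ∑ y : Bx k m, J (ph (z, (Sum.inl y : Bx k m ⊕ Bi k m))) *
      (σ (aa (ph (z, (Sum.inl y : Bx k m ⊕ Bi k m)))) *
        σ (bb (ph (z, (Sum.inl y : Bx k m ⊕ Bi k m)))) -
        ρ (aa (ph (z, (Sum.inl y : Bx k m ⊕ Bi k m)))) *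
        ρ (bb (ph (z, (Sum.inl y : Bx k m ⊕ Bi k m))))) ≤
      δ * ∑ y : Bx k m, |v - σ (pt z y)| := by
    rw [Finset.mul_sum]
    refine Finset.sum_le_sum fun y _ => ?_
    rw [aa_l, bb_l, hρz, hρo (pt (z + 1) y) (by rw [pt_zero]; omega)]
    exact hdiff _ _ _ (ha y) (hle1 _)
  have hB : ∑ y : Bx k m, J (ph (z - 1, (Sum.inl y : Bx k m ⊕ Bi k m))) *
      (σ (aa (ph (z - 1, (Sum.inl y : Bx k m ⊕ Bi k m)))) *
        σ (bb (ph (z - 1, (Sum.inl y : Bx k m ⊕ Bi k m)))) -
        ρ (aa (ph (z - 1, (Sum.inl y : Bx k m ⊕ Bi k m)))) *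
        ρ (bb (ph (z - 1, (Sum.inl y : Bx k m ⊕ Bi k m))))) ≤
      δ * ∑ y : Bx k m, |v - σ (pt z y)| := by
    rw [Finset.mul_sum]
    refine Finset.sum_le_sum fun y _ => ?_
    rw [aa_l, bb_l, sub_add_cancel, hρz, hρo (pt (z - 1) y) (by rw [pt_zero]; omega)]
    have := hdiff (J (ph (z - 1, (Sum.inl y : Bx k m ⊕ Bi k m)))) (σ (pt (z - 1) y))
      (σ (pt z y)) (hb y) (hle1 _)
    rwa [mul_comm (σ (pt (z - 1) y)) (σ (pt z y)), mul_comm (σ (pt (z - 1) y)) v]
  have hC : ∑ p : Bi k m, J (ph (z, (Sum.inr p : Bx k m ⊕ Bi k m))) *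
      (σ (aa (ph (z, (Sum.inr p : Bx k m ⊕ Bi k m)))) *
        σ (bb (ph (z, (Sum.inr p : Bx k m ⊕ Bi k m)))) -
        ρ (aa (ph (z, (Sum.inr p : Bx k m ⊕ Bi k m)))) *
        ρ (bb (ph (z, (Sum.inr p : Bx k m ⊕ Bi k m))))) ≤
      -(c * ∑ p : Bi k m, |σ (pt z (bs p)) - σ (pt z (bt p))|) := by
    rw [Finset.mul_sum, ← Finset.sum_neg_distrib]
    refine Finset.sum_le_sum fun p _ => ?_
    rw [aa_r, bb_r, hρz, hρz]
    have hJ := hs p
    have hvv : v * v = 1 := by rcases hv with h | h <;> rw [h] <;> norm_num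
    rw [hvv]
    rcases hpm (bs p) with h1 | h1 <;> rcases hpm (bt p) with h2 | h2 <;> rw [h1, h2] <;>
      norm_num <;> linarith
  show c * ∑ p : Bi k m, |σ (pt z (bs p)) - σ (pt z (bt p))| ≤
    2 * δ * ∑ y : Bx k m, |v - σ (pt z y)|
  linarith

/-- The same for points of the horn. -/
theorem pin' {w : ℕ → ℕ} {z : ℤ} (hz : 0 ≤ z)
    {J : (Fin (k + 1) → ℤ) × Fin (k + 1) → ℝ} {c δ : ℝ} (hc : 0 < c)
    (hδ : 2 * δ * (2 * w z.toNat + 1 : ℕ) < c)
    (hs : ∀ p : Bi k (w z.toNat), c ≤ J (ph (z, (Sum.inr p : Bx k (w z.toNat) ⊕ _))))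
    (ha : ∀ y : Bx k (w z.toNat), |J (ph (z, (Sum.inl y : _ ⊕ Bi k (w z.toNat))))| ≤ δ)
    (hb : ∀ y : Bx k (w z.toNat), |J (ph (z - 1, (Sum.inl y : _ ⊕ Bi k (w z.toNat))))| ≤ δ)
    {σ : (Fin (k + 1) → ℤ) → ℝ} (hσ : GS aa bb (horn k w) J σ) {v v' : Fin (k + 1) → ℤ}
    (hv : v ∈ horn k w) (hv' : v' ∈ horn k w) (h0 : v 0 = z) (h0' : v' 0 = z) : σ v = σ v' := by
  have h1 := pin hz rfl hc hδ hs ha hb hσ (pr _ v) (pr _ v')
  have h4 := horn_pt (m := w z.toNat) hv (by rw [h0])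
  have h5 := horn_pt (m := w z.toNat) hv' (by rw [h0'])
  rw [h0] at h4
  rw [h0'] at h5
  rw [h4, h5] at h1
  exact h1

end Pool.Agent.L5helper86.EA
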