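import Pool.Agent.L5helper86.EA.Long2

/-!
# Frustrated slabs occur on the horn; two ground states have common constant slices
-/

set_option autoImplicit false

open Finset MeasureTheory ProbabilityTheory

namespace Pool.Agent.L5helper86.EA

open Pool.Agent.TH761.EA Pool.Agent.TH761.EB

lemma altS_box (k m : ℕ) : AltS (bs : Bi k m → Bx k m) bt (se : Bx k m → ℝ) :=
  ⟨abs_se, sum_se k, alt_bonds⟩

/-- Two ground states which agree up to sign on infinitely many constant slices. -/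
theorem unique_pair {k : ℕ} {w : ℕ → ℕ} {J : (Fin (k + 1) → ℤ) × Fin (k + 1) → ℝ}
    {σ τ : (Fin (k + 1) → ℤ) → ℝ} (hσ : GS aa bb (horn k w) J σ) (hτ : GS aa bb (horn k w) J τ)
    (hpin : ∀ n0 : ℕ, ∃ z : ℤ, (n0 : ℤ) ≤ z ∧
      (∀ v v', v ∈ horn k w → v' ∈ horn k w → v 0 = z → v' 0 = z → σ v = σ v') ∧
      (∀ v v', v ∈ horn k w → v' ∈ horn k w → v 0 = z → v' 0 = z → τ v = τ v')) :
    τ = σ ∨ τ = -σ := by
  have key : ∀ n0 : ℕ, ∃ z : ℤ, (n0 : ℤ) ≤ z ∧ ∃ r : ℝ, (r = 1 ∨ r = -1) ∧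
      ∀ v : Fin (k + 1) → ℤ, v 0 ≤ z → σ v = r * τ v := by
    intro n0
    obtain ⟨z, hz, hp, hp'⟩ := hpin n0
    have hc := cen_mem (k := k) w (z := z) (by omega)
    have hc0 : cen k z 0 = z := rfl
    refine ⟨z, hz, σ (cen k z) * τ (cen k z), ?_, ?_⟩
    · rcases hσ.1.1 _ hc with h1 | h1 <;> rcases hτ.1.1 _ hc with h2 | h2 <;>
        rw [h1, h2] <;> norm_num
    · have hr : σ (cen k z) * τ (cen k z) = 1 ∨ σ (cen k z) * τ (cen k z) = -1 := by
        rcases hσ.1.1 _ hc with h1 | h1 <;> rcases hτ.1.1 _ hc with h2 | h2 <;>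
          rw [h1, h2] <;> norm_num
      have h := agree hσ hτ hr (Λ := {v | v 0 ≤ z}) (horn_fin w z) ?_ ?_
      · exact h
      · intro e ha hb
        have ha' : aa e 0 ≤ z := ha
        have hb' : ¬ bb e 0 ≤ z := hb
        have h0 : aa e 0 = z := by rcases bb_zero e with h1 | h1 <;> omega
        by_cases hR : aa e ∈ horn k w
        · rw [hp _ _ hR hc h0 hc0, hp' _ _ hR hc h0 hc0]
          rcases hτ.1.1 _ hc with h2 | h2 <;> rw [h2] <;> ring
        · rw [hσ.1.2 _ hR, hτ.1.2 _ hR, mul_zero]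
      · intro e hb ha
        exfalso
        have ha' : ¬ aa e 0 ≤ z := ha
        have hb' : bb e 0 ≤ z := hb
        rcases bb_zero e with h1 | h1 <;> omega
  have h00 := cen_mem (k := k) w (z := 0) le_rfl
  have hall : ∀ v, σ v = (σ (cen k 0) * τ (cen k 0)) * τ v := by
    intro v
    obtain ⟨z, hz, r, hr, h⟩ := key (v 0).toNat
    have h1 := h v (by omega)
    have h2 := h (cen k 0) (by have : cen k 0 0 = 0 := rfl; omega)
    rw [h1, h2]
    rcases hτ.1.1 _ h00 with h3 | h3 <;> rw [h3] <;> ring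
  rcases hσ.1.1 _ h00 with h1 | h1 <;> rcases hτ.1.1 _ h00 with h2 | h2
  · left; funext v; rw [hall v, h1, h2]; ring
  · right; funext v; rw [Pi.neg_apply, hall v, h1, h2]; ring
  · right; funext v; rw [Pi.neg_apply, hall v, h1, h2]; ring
  · left; funext v; rw [hall v, h1, h2]; ring

/-- In a frustrated slab two ground states have a common constant slice. -/
theorem slice_of_tr {k : ℕ} {w : ℕ → ℕ} {m : ℕ} {J : (Fin (k + 1) → ℤ) × Fin (k + 1) → ℝ}
    {x1 y2 δ : ℝ} {L h j : ℕ} (hx1 : 0 < x1) (hxy : x1 < y2) (hδ0 : 0 ≤ δ)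
    (hδ : 4 * δ * Fintype.card (Bx k m) * (2 * L + 1) ≤ x1)
    (hh : 16 * (x1 / (y2 - x1)) ≤ h) (hpos : 0 < h) (hj : 4 * Fintype.card (Bi k m) ≤ 2 ^ j)
    (hL : (2 * h + 2) * j ≤ 2 * L + 1) {z : ℤ}
    (hw : ∀ n, z - L ≤ n → n ≤ z + L + 1 → 0 ≤ n ∧ w n.toNat = m)
    (hT : Tr2 (se : Bx k m → ℝ) x1 y2 δ L (fun e : ℤ × (Bx k m ⊕ Bi k m) => J (ph e)) z)
    {σ τ : (Fin (k + 1) → ℤ) → ℝ} (hσ : GS aa bb (horn k w) J σ)
    (hτ : GS aa bb (horn k w) J τ) :
    ∃ n, z - L ≤ n ∧ n ≤ z + L + 1 ∧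
      (∀ v v', v ∈ horn k w → v' ∈ horn k w → v 0 = n → v' 0 = n → σ v = σ v') ∧
      (∀ v v', v ∈ horn k w → v' ∈ horn k w → v 0 = n → v' 0 = n → τ v = τ v') := by
  obtain ⟨n, h1, h2, h3⟩ := Tr2_common (altS_box k m) hx1 hxy hδ0 hT hδ hh hpos hj hL
    (grOn hσ hw) (grOn hτ hw)
  simp only [h1, h2, and_self, if_true] at h3
  have h4 := bx_conn (fun y : Bx k m => σ (pt n y)) (fun i => (h3 i).1)
  have h5 := bx_conn (fun y : Bx k m => τ (pt n y)) (fun i => (h3 i).2)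
  have hwn := (hw n h1 h2).2
  have hpt : ∀ v, v ∈ horn k w → v 0 = n → pt n (pr m v) = v := by
    intro v hv hv0
    have := horn_pt (m := m) hv (by rw [hv0]; exact hwn)
    rwa [hv0] at this
  refine ⟨n, h1, h2, fun v v' hv hv' h0 h0' => ?_, fun v v' hv hv' h0 h0' => ?_⟩
  · have := h4 (pr m v) (pr m v')
    simp only [hpt v hv h0, hpt v' hv' h0'] at this
    exact this
  · have := h5 (pr m v) (pr m v')
    simp only [hpt v hv h0, hpt v' hv' h0'] at this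
    exact this

variable (μ : Measure ℝ) [IsProbabilityMeasure μ]

theorem pins2 {k : ℕ} {w : ℕ → ℕ} {C0 x1 y2 x' β : ℝ} {h : ℕ} (hx : 0 < x') (hx1 : x' ≤ 1)
    (hβ : 0 < β)
    (hnum : ∀ t : ℕ, ∃ T : ℝ, 0 < T ∧ ∀ m : ℕ, ∃ L j M : ℕ,
      4 * Fintype.card (Bi k m) ≤ 2 ^ j ∧ (2 * h + 2) * j ≤ 2 * L + 1 ∧
      (t : ℝ) ≤ M * (β * (x' / (4 * Fintype.card (Bx k m) * (2 * L + 1))) ^ 2) ^
        ((2 * L + 2) * Fintype.card (Bx k m ⊕ Bi k m)) ∧
      ((M : ℝ) + 2) * (2 * L + 2) ≤ T * Real.exp (C0 * Ux k m))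
    (hw : Long2 k C0 w)
    (h0 : ∀ δ : ℝ, 0 < δ → δ ≤ 1 → ∀ e : ℝ, (e = 1 ∨ e = -1) →
      ENNReal.ofReal (β * δ ^ 2) ≤ μ (Set.Icc (e * x1 - δ) (e * x1 + δ)))
    (h1 : ENNReal.ofReal β ≤ μ (Set.Ici y2)) :
    ∀ᵐ J ∂(Measure.infinitePi fun _ : (Fin (k + 1) → ℤ) × Fin (k + 1) => μ),
      ∀ n0 : ℕ, ∃ z : ℤ, ∃ m L j : ℕ,
        4 * Fintype.card (Bi k m) ≤ 2 ^ j ∧ (2 * h + 2) * j ≤ 2 * L + 1 ∧
        (∀ n, z - L ≤ n → n ≤ z + L + 1 → (n0 : ℤ) ≤ n ∧ w n.toNat = m) ∧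
        Tr2 (se : Bx k m → ℝ) x1 y2 (x' / (4 * Fintype.card (Bx k m) * (2 * L + 1))) L
          (fun e : ℤ × (Bx k m ⊕ Bi k m) => J (ph e)) z := by
  rw [ae_all_iff]
  intro n0
  set P := Measure.infinitePi fun _ : (Fin (k + 1) → ℤ) × Fin (k + 1) => μ with hP
  rw [ae_iff]
  set Bad := {J : (Fin (k + 1) → ℤ) × Fin (k + 1) → ℝ | ¬ ∃ z : ℤ, ∃ m L j : ℕ,
        4 * Fintype.card (Bi k m) ≤ 2 ^ j ∧ (2 * h + 2) * j ≤ 2 * L + 1 ∧
        (∀ n, z - L ≤ n → n ≤ z + L + 1 → (n0 : ℤ) ≤ n ∧ w n.toNat = m) ∧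
        Tr2 (se : Bx k m → ℝ) x1 y2 (x' / (4 * Fintype.card (Bx k m) * (2 * L + 1))) L
          (fun e : ℤ × (Bx k m ⊕ Bi k m) => J (ph e)) z} with hBad
  have hbound : ∀ t : ℕ, P Bad ≤ ENNReal.ofReal (Real.exp (-(t : ℝ))) := by
    intro t
    obtain ⟨T, hT, hC⟩ := hnum t
    obtain ⟨a, ha, hst⟩ := hw T n0
    obtain ⟨L, j0, M, hj0, hL, ht, hlen⟩ := hC (w a)
    set m := w a with hm
    set δ : ℝ := x' / (4 * Fintype.card (Bx k m) * (2 * L + 1)) with hδ
    have hcB : (1 : ℝ) ≤ Fintype.card (Bx k m) := by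
      rw [card_Bx]
      push_cast
      apply one_le_pow₀
      have : (0 : ℝ) ≤ m := Nat.cast_nonneg m
      linarith
    have hL0 : (0 : ℝ) ≤ L := Nat.cast_nonneg L
    have hδ0 : 0 < δ := by positivity
    have hδ1 : δ ≤ 1 := by
      rw [hδ, div_le_one (by positivity)]
      nlinarith
    have hq0 : 0 ≤ β * δ ^ 2 := by positivity
    set κ : ℕ → ℤ := fun j => ((a / (2 * L + 2) : ℕ) : ℤ) + 2 + j with hκ
    have hκi : Function.Injective κ := by
      intro i j h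
      simp only [hκ] at h
      omega
    have hnone := Tr2_none (V := Bx k m) (I := Bi k m) μ (ε := se) (x1 := x1) (y2 := y2) (δ := δ)
      L κ hκi (pow_nonneg hq0 _) (fun z => Tr2_prob μ hq0 (fun y => h0 δ hδ0 hδ1 (se y) (se_pm y))
        (le_trans (ENNReal.ofReal_le_ofReal (by
          have : δ ^ 2 ≤ 1 := pow_le_one₀ hδ0.le hδ1
          exact mul_le_of_le_one_right hβ.le this)) h1) L z) M
    refine le_trans ?_ (hnone.trans ?_)
    · rw [← ph_law μ k m, Measure.map_apply (by fun_prop)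
        (Finset.measurableSet_biInter _ fun j _ => (Tr2_meas _ _ _ _ _ _).compl)]
      refine measure_mono ?_
      intro J hJ
      simp only [Set.mem_preimage, Set.mem_iInter, Set.mem_compl_iff, Set.mem_setOf_eq,
        Finset.mem_range]
      intro j hj hT
      apply hJ
      set q : ℕ := 2 * L + 2 with hq
      have hqp : 0 < q := by omega
      have d1 : a / q * q ≤ a := Nat.div_mul_le_self a q
      have d2 : a < a / q * q + q := by
        have := Nat.lt_div_mul_add hqp (a := a)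
        exact this
      have hz : κ j * (2 * (L : ℤ) + 2) = ((a / q * q + (2 + j) * q : ℕ) : ℤ) := by
        simp only [hκ, hq]; push_cast; ring
      have hjM : (2 + j) * q + q ≤ (M + 2) * q := by
        have : (2 + j) * q + q = (j + 3) * q := by ring
        rw [this]
        exact Nat.mul_le_mul_right _ (by omega)
      have hj2 : 2 * q ≤ (2 + j) * q := Nat.mul_le_mul_right _ (by omega)
      rw [hz] at hT
      refine ⟨_, m, L, j0, hj0, hL, ?_, hT⟩
      intro n hn1 hn2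
      have hn0 : (a : ℤ) ≤ n := by omega
      refine ⟨by omega, ?_⟩
      have hna : a ≤ n.toNat := by omega
      have hnb : n.toNat ≤ a + (M + 2) * q := by omega
      apply hst _ hna
      have hnb' : (n.toNat : ℝ) ≤ a + (M + 2) * q := by exact_mod_cast hnb
      have hq' : (q : ℝ) = 2 * L + 2 := by rw [hq]; push_cast; ring
      rw [hq'] at hnb'
      linarith
    · apply ENNReal.ofReal_le_ofReal
      apply Real.exp_le_exp.2
      linarith
  have hlim : Filter.Tendsto (fun t : ℕ => ENNReal.ofReal (Real.exp (-(t : ℝ)))) Filter.atTop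
      (nhds 0) := by
    have h2 : Filter.Tendsto (fun t : ℕ => Real.exp (-(t : ℝ))) Filter.atTop (nhds 0) :=
      Real.tendsto_exp_neg_atTop_nhds_zero.comp tendsto_natCast_atTop_atTop
    have h3 := ENNReal.tendsto_ofReal h2
    rwa [ENNReal.ofReal_zero] at h3
  exact le_antisymm (ge_of_tendsto' hlim hbound) bot_le

end Pool.Agent.L5helper86.EA
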