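import Pool.Agent.L5helper86.EA.Alt

/-!
# Frustrated slabs

Inside the slices the bonds are close to `x2`, between the slices they are close to `x1` times an
alternating sign, `0 < x1 < x2`. In a locally optimal configuration the total number of broken
bonds inside the slices of a slab is bounded by the number of broken bonds in the two
bounding slices.
-/

set_option autoImplicit false

open Finset

namespace Pool.Agent.L5helper86.EA

open Pool.Agent.TH761.EA Pool.Agent.TH761.EB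

variable {V I : Type} [Fintype V] [Fintype I] {s t : I → V}

/-- an alternating sign -/
structure AltS (s t : I → V) (ε : V → ℝ) : Prop where
  abs : ∀ y, |ε y| = 1
  sum : ∑ y, ε y = 1
  alt : ∀ p : V → ℝ, (∀ y, |p y| ≤ 1) →
    |∑ y, ε y * p y| ≤ 1 + (1 / 2) * ∑ i, |p (s i) - p (t i)|

/-- twice the number of broken bonds in the slice `n` -/
noncomputable def Bk (s t : I → V) (σ : ℤ × V → ℝ) (n : ℤ) : ℝ := ∑ i, |σ (n, s i) - σ (n, t i)|

omit [Fintype V] in
lemma Bk_nonneg (σ : ℤ × V → ℝ) (n : ℤ) : 0 ≤ Bk s t σ n :=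
  Finset.sum_nonneg fun _ _ => abs_nonneg _

lemma inter_le {ε : V → ℝ} (hε : AltS s t ε) {J : ℤ × (V ⊕ I) → ℝ} {n : ℤ} {x1 δ : ℝ}
    (hx1 : 0 ≤ x1) (hJ : ∀ y, |J (n, Sum.inl y) - ε y * x1| ≤ δ) {σ : ℤ × V → ℝ} (hσ : Pm σ) :
    |∑ y, J (n, Sum.inl y) * (σ (n, y) * σ (n + 1, y))| ≤
      x1 * (1 + (Bk s t σ n + Bk s t σ (n + 1)) / 2) + δ * Fintype.card V := by
  have hp : ∀ y, |σ (n, y) * σ (n + 1, y)| = 1 := by
    intro y
    rcases hσ (n, y) with h1 | h1 <;> rcases hσ (n + 1, y) with h2 | h2 <;> rw [h1, h2] <;> norm_num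
  have e1 : ∑ y, J (n, Sum.inl y) * (σ (n, y) * σ (n + 1, y)) =
      x1 * ∑ y, ε y * (σ (n, y) * σ (n + 1, y)) +
      ∑ y, (J (n, Sum.inl y) - ε y * x1) * (σ (n, y) * σ (n + 1, y)) := by
    rw [Finset.mul_sum, ← Finset.sum_add_distrib]
    exact Finset.sum_congr rfl fun y _ => by ring
  have e2 := hε.alt (fun y => σ (n, y) * σ (n + 1, y)) (fun y => (hp y).le)
  have e3 : ∑ i, |σ (n, s i) * σ (n + 1, s i) - σ (n, t i) * σ (n + 1, t i)| ≤
      Bk s t σ n + Bk s t σ (n + 1) := by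
    unfold Bk
    rw [← Finset.sum_add_distrib]
    refine Finset.sum_le_sum fun i _ => ?_
    rcases hσ (n, s i) with h1 | h1 <;> rcases hσ (n + 1, s i) with h2 | h2 <;>
      rcases hσ (n, t i) with h3 | h3 <;> rcases hσ (n + 1, t i) with h4 | h4 <;>
      rw [h1, h2, h3, h4] <;> norm_num
  have e4 : |∑ y, (J (n, Sum.inl y) - ε y * x1) * (σ (n, y) * σ (n + 1, y))| ≤
      δ * Fintype.card V := by
    refine (Finset.abs_sum_le_sum_abs _ _).trans ?_
    calc ∑ y, |(J (n, Sum.inl y) - ε y * x1) * (σ (n, y) * σ (n + 1, y))|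
        ≤ ∑ _y : V, δ := Finset.sum_le_sum fun y _ => by
          rw [abs_mul, hp y, mul_one]; exact hJ y
      _ = δ * Fintype.card V := by
          rw [Finset.sum_const, Finset.card_univ, nsmul_eq_mul, mul_comm]
  rw [e1]
  refine (abs_add_le _ _).trans ?_
  rw [abs_mul, abs_of_nonneg hx1]
  have e5 : x1 * |∑ y, ε y * (σ (n, y) * σ (n + 1, y))| ≤
      x1 * (1 + (Bk s t σ n + Bk s t σ (n + 1)) / 2) := by
    apply mul_le_mul_of_nonneg_left _ hx1
    refine e2.trans ?_
    linarith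
  linarith

omit [Fintype V] in
lemma in_ge {J : ℤ × (V ⊕ I) → ℝ} {n : ℤ} {y2 : ℝ} (hJ : ∀ i, y2 ≤ J (n, Sum.inr i))
    {σ : ℤ × V → ℝ} (hσ : Pm σ) :
    ∑ i, J (n, Sum.inr i) * (σ (n, s i) * σ (n, t i)) ≤
      ∑ i, J (n, Sum.inr i) - y2 * Bk s t σ n := by
  unfold Bk
  rw [Finset.mul_sum, ← Finset.sum_sub_distrib]
  refine Finset.sum_le_sum fun i _ => ?_
  have h := hJ i
  rcases hσ (n, s i) with h1 | h1 <;> rcases hσ (n, t i) with h2 | h2 <;>
    rw [h1, h2] <;> norm_num <;> linarith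

lemma en_eq (J : ℤ × (V ⊕ I) → ℝ) (σ : ℤ × V → ℝ) (n : ℤ) :
    en s t J σ n = ∑ y, J (n, Sum.inl y) * (σ (n, y) * σ (n + 1, y)) +
      ∑ i, J (n, Sum.inr i) * (σ (n, s i) * σ (n, t i)) := by
  unfold en
  rw [Fintype.sum_sum_type]
  rfl

/-- The broken bonds inside a slab. -/
theorem slab {ε : V → ℝ} (hε : AltS s t ε) {J : ℤ × (V ⊕ I) → ℝ} {P Q p q : ℤ} {x1 x2 δ : ℝ}
    (hx1 : 0 ≤ x1) (hPp : P ≤ p) (hpq : p + 2 ≤ q) (hqQ : q ≤ Q)
    (hJ1 : ∀ n, p ≤ n → n < q → ∀ y, |J (n, Sum.inl y) - ε y * x1| ≤ δ)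
    (hJ2 : ∀ n, p < n → n < q → ∀ i, x2 ≤ J (n, Sum.inr i))
    {σ : ℤ × V → ℝ} (hσ : GrOn s t J σ P Q) :
    (x2 - x1) * ∑ n ∈ Ioo p q, Bk s t σ n ≤
      x1 * (Bk s t σ p + Bk s t σ q + 4) + 2 * δ * Fintype.card V * (q - p) := by
  classical
  set ρ : ℤ × V → ℝ := fun v => if p < v.1 ∧ v.1 < q then 1 else σ v with hρ
  have hPρ : Pm ρ := by
    intro v
    by_cases hv : p < v.1 ∧ v.1 < q
    · left; simp [hρ, hv]
    · simp only [hρ, hv, if_false]; exact hσ.1 v
  have hρi : ∀ n x, p < n → n < q → ρ (n, x) = 1 := by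
    intro n x h1 h2
    simp [hρ, h1, h2]
  have hρo : ∀ n x, n ≤ p ∨ q ≤ n → ρ (n, x) = σ (n, x) := by
    intro n x hn
    have : ¬ (p < n ∧ n < q) := by omega
    simp [hρ, this]
  have hle := hσ.le hPp hqQ hPρ hρo
  set N : ℝ := (Fintype.card V : ℝ) with hN
  set B : ℤ → ℝ := Bk s t σ with hB
  have hBρ : ∀ n, p < n → n < q → Bk s t ρ n = 0 := by
    intro n h1 h2
    unfold Bk
    refine Finset.sum_eq_zero fun i _ => ?_
    rw [hρi n _ h1 h2, hρi n _ h1 h2, sub_self, abs_zero]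
  have hBρo : ∀ n, n ≤ p ∨ q ≤ n → Bk s t ρ n = B n := by
    intro n hn
    rw [hB]
    unfold Bk
    refine Finset.sum_congr rfl fun i _ => ?_
    rw [hρo n _ hn, hρo n _ hn]
  -- one column
  have key : ∀ n ∈ Ico p q, en s t J σ n + ((if p < n then x2 * B n else 0) -
      x1 / 2 * (B n + B (n + 1)) - 2 * (δ * N) - (if n = p then x1 * (2 + B p / 2) else 0) -
      (if n = q - 1 then x1 * (2 + B q / 2) else 0)) ≤ en s t J ρ n := by
    intro n hn
    have hn' := Finset.mem_Ico.1 hn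
    rw [en_eq, en_eq]
    have hI := inter_le hε hx1 (hJ1 n hn'.1 hn'.2) hσ.1
    rw [abs_le] at hI
    have hIρ := inter_le hε hx1 (hJ1 n hn'.1 hn'.2) hPρ
    rw [abs_le] at hIρ
    rcases eq_or_lt_of_le hn'.1 with h0 | h0
    · -- the first column
      subst h0
      rw [if_neg (lt_irrefl _), if_pos rfl, if_neg (by omega)]
      have h1 : ∑ i, J (p, Sum.inr i) * (ρ (p, s i) * ρ (p, t i)) =
          ∑ i, J (p, Sum.inr i) * (σ (p, s i) * σ (p, t i)) := by
        refine Finset.sum_congr rfl fun i _ => ?_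
        rw [hρo p _ (Or.inl le_rfl), hρo p _ (Or.inl le_rfl)]
      rw [h1]
      have h2 := hBρ (p + 1) (by omega) (by omega)
      have h3 := hBρo p (Or.inl le_rfl)
      rw [h2, h3] at hIρ
      have h4 := hI.2
      have h5 := hIρ.1
      rw [← hN] at h4 h5
      change _ ≤ x1 * (1 + (B p + B (p + 1)) / 2) + δ * N at h4
      linarith
    · rw [if_pos h0, if_neg (by omega)]
      have h1 : ∑ i, J (n, Sum.inr i) * (ρ (n, s i) * ρ (n, t i)) = ∑ i, J (n, Sum.inr i) := by
        refine Finset.sum_congr rfl fun i _ => ?_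
        rw [hρi n _ h0 hn'.2, hρi n _ h0 hn'.2]; ring
      have h2 := in_ge (s := s) (t := t) (hJ2 n h0 hn'.2) hσ.1
      rw [h1]
      change _ ≤ _ - x2 * B n at h2
      have h4 := hI.2
      rw [← hN] at h4
      change _ ≤ x1 * (1 + (B n + B (n + 1)) / 2) + δ * N at h4
      by_cases hl : n = q - 1
      · rw [if_pos hl]
        have h3 : Bk s t ρ n = 0 := hBρ n h0 hn'.2
        have h3' : Bk s t ρ (n + 1) = B (n + 1) := hBρo (n + 1) (Or.inr (by omega))
        have h3q : B (n + 1) = B q := by rw [hl]; congr 1; ring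
        rw [h3, h3'] at hIρ
        have h5 := hIρ.1
        rw [← hN] at h5
        rw [h3q] at h4 h5 ⊢
        linarith
      · rw [if_neg hl]
        -- an interior column
        have h6 : ∑ y, J (n, Sum.inl y) * (ρ (n, y) * ρ (n + 1, y)) = ∑ y, J (n, Sum.inl y) := by
          refine Finset.sum_congr rfl fun y _ => ?_
          rw [hρi n _ h0 hn'.2, hρi (n + 1) _ (by omega) (by omega)]; ring
        have h7 : x1 - δ * N ≤ ∑ y, J (n, Sum.inl y) := by
          have e1 : ∑ y, J (n, Sum.inl y) = x1 * ∑ y, ε y +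
              ∑ y, (J (n, Sum.inl y) - ε y * x1) := by
            rw [Finset.mul_sum, ← Finset.sum_add_distrib]
            exact Finset.sum_congr rfl fun y _ => by ring
          have e2 : |∑ y, (J (n, Sum.inl y) - ε y * x1)| ≤ δ * N := by
            refine (Finset.abs_sum_le_sum_abs _ _).trans ?_
            calc ∑ y, |J (n, Sum.inl y) - ε y * x1|
                ≤ ∑ _y : V, δ := Finset.sum_le_sum fun y _ => hJ1 n hn'.1 hn'.2 y
              _ = δ * N := by
                  rw [Finset.sum_const, Finset.card_univ, nsmul_eq_mul, mul_comm]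
          rw [e1, hε.sum]
          rw [abs_le] at e2
          linarith
        rw [h6]
        linarith
  have hsum := Finset.sum_le_sum key
  rw [Finset.sum_add_distrib] at hsum
  change S s t J σ p q + _ ≤ S s t J ρ p q at hsum
  have hneg := le_trans hsum hle
  have h0 : ∑ n ∈ Ico p q, ((if p < n then x2 * B n else 0) -
      x1 / 2 * (B n + B (n + 1)) - 2 * (δ * N) - (if n = p then x1 * (2 + B p / 2) else 0) -
      (if n = q - 1 then x1 * (2 + B q / 2) else 0)) ≤ 0 := by linarith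
  rw [Finset.sum_sub_distrib, Finset.sum_sub_distrib, Finset.sum_sub_distrib,
    Finset.sum_sub_distrib, Finset.sum_ite_eq', Finset.sum_ite_eq',
    if_pos (Finset.mem_Ico.2 ⟨le_rfl, by omega⟩), if_pos (Finset.mem_Ico.2 ⟨by omega, by omega⟩),
    Finset.sum_const, Int.card_Ico, nsmul_eq_mul, ← Finset.mul_sum, Finset.sum_add_distrib] at h0
  have hc1 : ((q - p).toNat : ℝ) = q - p := by
    have : ((q - p).toNat : ℤ) = q - p := Int.toNat_of_nonneg (by omega)
    exact_mod_cast this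
  rw [hc1] at h0
  have hs1 : ∑ n ∈ Ico p q, (if p < n then x2 * B n else 0) = x2 * ∑ n ∈ Ioo p q, B n := by
    rw [← Finset.sum_filter, Finset.mul_sum]
    refine Finset.sum_congr ?_ fun _ _ => rfl
    ext n
    simp only [Finset.mem_filter, Finset.mem_Ico, Finset.mem_Ioo]
    omega
  have hs2 : ∑ n ∈ Ico p q, B n = B p + ∑ n ∈ Ioo p q, B n := by
    rw [← Finset.Ioo_insert_left (by omega : p < q), Finset.sum_insert (by simp)]
  have hs3 : ∑ n ∈ Ico p q, B (n + 1) = B q + ∑ n ∈ Ioo p q, B n := by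
    have e1 : ∑ n ∈ Ico p q, B (n + 1) = ∑ n ∈ Ioc p q, B n := by
      refine Finset.sum_nbij' (fun n => n + 1) (fun n => n - 1) ?_ ?_ ?_ ?_ ?_
      · intro n hn
        rw [Finset.mem_Ico] at hn
        rw [Finset.mem_Ioc]; omega
      · intro n hn
        rw [Finset.mem_Ioc] at hn
        rw [Finset.mem_Ico]; omega
      · intro n _; ring
      · intro n _; ring
      · intro n _; rfl
    rw [e1, ← Finset.Ioo_insert_right (by omega : p < q), Finset.sum_insert (by simp)]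
  rw [hs1, hs2, hs3] at h0
  linarith

end Pool.Agent.L5helper86.EA
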