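import Pool.Agent.L5helper86.EA.Iter
import Pool.Agent.TH761.EB.Grow

/-!
# The frustrated slabs: independence and probability
-/

set_option autoImplicit false

open Finset MeasureTheory ProbabilityTheory

namespace Pool.Agent.L5helper86.EA

open Pool.Agent.TH761.EA Pool.Agent.TH761.EB

variable {V I : Type} [Fintype V] [Fintype I]

/-- the range of values of a bond of a slab -/
def wn (ε : V → ℝ) (x1 y2 δ : ℝ) : V ⊕ I → Set ℝ
  | Sum.inl y => Set.Icc (ε y * x1 - δ) (ε y * x1 + δ)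
  | Sum.inr _ => Set.Ici y2

/-- the block at `z` is a frustrated slab -/
def Tr2 (ε : V → ℝ) (x1 y2 δ : ℝ) (L : ℕ) (J : ℤ × (V ⊕ I) → ℝ) (z : ℤ) : Prop :=
  ∀ e ∈ blk V I L z, J e ∈ wn (I := I) ε x1 y2 δ e.2

omit [Fintype V] [Fintype I] in
lemma wn_meas (ε : V → ℝ) (x1 y2 δ : ℝ) (e : V ⊕ I) : MeasurableSet (wn (I := I) ε x1 y2 δ e) := by
  rcases e with y | i
  · exact measurableSet_Icc
  · exact measurableSet_Ici

lemma Tr2_pi (ε : V → ℝ) (x1 y2 δ : ℝ) (L : ℕ) (z : ℤ) :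
    {J : ℤ × (V ⊕ I) → ℝ | Tr2 ε x1 y2 δ L J z} =
      Set.pi (TH761.EA.blk V I L z : Set (ℤ × (V ⊕ I))) (fun e => wn ε x1 y2 δ e.2) := by
  ext J
  simp only [Set.mem_setOf_eq, Set.mem_pi, Finset.mem_coe, Tr2]

lemma Tr2_meas (ε : V → ℝ) (x1 y2 δ : ℝ) (L : ℕ) (z : ℤ) :
    MeasurableSet {J : ℤ × (V ⊕ I) → ℝ | Tr2 ε x1 y2 δ L J z} := by
  have : {J : ℤ × (V ⊕ I) → ℝ | Tr2 ε x1 y2 δ L J z} =
      ⋂ e ∈ TH761.EA.blk V I L z,
        (fun J : ℤ × (V ⊕ I) → ℝ => J e) ⁻¹' wn (I := I) ε x1 y2 δ e.2 := by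
    ext J; simp [Tr2]
  rw [this]
  exact Finset.measurableSet_biInter _ fun e _ => (measurable_pi_apply e) (wn_meas ε x1 y2 δ e.2)

variable (μ : Measure ℝ) [IsProbabilityMeasure μ]

lemma Tr2_indep (ε : V → ℝ) (x1 y2 δ : ℝ) (L : ℕ) (κ : ℕ → ℤ) (hκ : Function.Injective κ) :
    iIndepSet (fun k => {J : ℤ × (V ⊕ I) → ℝ | Tr2 ε x1 y2 δ L J (κ k * (2 * L + 2))})
      (Law V I μ) := by
  classical
  rw [iIndepSet_iff_meas_biInter (fun k => Tr2_meas ε x1 y2 δ L _)]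
  intro S
  have hinter : (⋂ k ∈ S, {J : ℤ × (V ⊕ I) → ℝ | Tr2 ε x1 y2 δ L J (κ k * (2 * L + 2))}) =
      Set.pi ((S.biUnion fun k => TH761.EA.blk V I L (κ k * (2 * L + 2)) : Finset _) :
        Set (ℤ × (V ⊕ I))) (fun e => wn ε x1 y2 δ e.2) := by
    ext J
    simp only [Set.mem_iInter, Tr2_pi, Set.mem_pi, Finset.coe_biUnion, Set.mem_iUnion,
      Finset.mem_coe]
    constructor
    · rintro h e ⟨k, hk, he⟩
      exact h k hk e he
    · intro h k hk e he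
      exact h e ⟨k, hk, he⟩
  rw [hinter]
  unfold Law
  rw [Measure.infinitePi_pi _ (fun e _ => wn_meas ε x1 y2 δ e.2), Finset.prod_biUnion]
  · refine Finset.prod_congr rfl fun k _ => ?_
    rw [Tr2_pi, Measure.infinitePi_pi _ (fun e _ => wn_meas ε x1 y2 δ e.2)]
  · intro k _ k' _ hkk'
    rw [Function.onFun, Finset.disjoint_left]
    intro e he he'
    exact hkk' (hκ ((ctr_eq L _ he).symm.trans (ctr_eq L _ he')))

lemma Tr2_prob {ε : V → ℝ} {x1 y2 δ q : ℝ} (hq : 0 ≤ q)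
    (h0 : ∀ y, ENNReal.ofReal q ≤ μ (Set.Icc (ε y * x1 - δ) (ε y * x1 + δ)))
    (h1 : ENNReal.ofReal q ≤ μ (Set.Ici y2)) (L : ℕ) (z : ℤ) :
    ENNReal.ofReal (q ^ ((2 * L + 2) * Fintype.card (V ⊕ I))) ≤
      Law V I μ {J : ℤ × (V ⊕ I) → ℝ | Tr2 ε x1 y2 δ L J z} := by
  rw [Tr2_pi]
  unfold Law
  rw [Measure.infinitePi_pi _ (fun e _ => wn_meas ε x1 y2 δ e.2)]
  have hcard : (TH761.EA.blk V I L z).card = (2 * L + 2) * Fintype.card (V ⊕ I) := by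
    unfold TH761.EA.blk
    rw [Finset.card_product, Int.card_Icc, Finset.card_univ]
    congr 1
    omega
  rw [← hcard, ENNReal.ofReal_pow hq]
  refine Finset.pow_card_le_prod _ _ _ fun e _ => ?_
  obtain ⟨n, y | i⟩ := e
  · exact h0 y
  · exact h1

lemma Tr2_none {ε : V → ℝ} {x1 y2 δ p : ℝ} (L : ℕ) (κ : ℕ → ℤ) (hκ : Function.Injective κ)
    (hp0 : 0 ≤ p)
    (hp : ∀ z, ENNReal.ofReal p ≤ Law V I μ {J : ℤ × (V ⊕ I) → ℝ | Tr2 ε x1 y2 δ L J z}) (M : ℕ) :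
    Law V I μ (⋂ j ∈ Finset.range M,
      {J : ℤ × (V ⊕ I) → ℝ | Tr2 ε x1 y2 δ L J (κ j * (2 * L + 2))}ᶜ) ≤
      ENNReal.ofReal (Real.exp (-(M * p))) := by
  have hi := (iIndepSet_iff_iIndep _ _).1 (Tr2_indep (V := V) (I := I) μ ε x1 y2 δ L κ hκ)
  rw [hi.meas_biInter (S := Finset.range M)
    (s := fun j => {J : ℤ × (V ⊕ I) → ℝ | Tr2 ε x1 y2 δ L J (κ j * (2 * L + 2))}ᶜ)
    (fun j _ => MeasurableSet.compl
      (MeasurableSpace.measurableSet_generateFrom (Set.mem_singleton _)))]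
  have h1 : ∀ j ∈ Finset.range M,
      Law V I μ ({J : ℤ × (V ⊕ I) → ℝ | Tr2 ε x1 y2 δ L J (κ j * (2 * L + 2))}ᶜ) ≤
        ENNReal.ofReal (Real.exp (-p)) := by
    intro j _
    rw [prob_compl_eq_one_sub (Tr2_meas ε x1 y2 δ L _)]
    refine (tsub_le_tsub_left (hp _) 1).trans ?_
    rw [← ENNReal.ofReal_one, ← ENNReal.ofReal_sub _ hp0]
    exact ENNReal.ofReal_le_ofReal (by linarith [Real.add_one_le_exp (-p)])
  refine (Finset.prod_le_prod' h1).trans (le_of_eq ?_)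
  rw [Finset.prod_const, Finset.card_range, ← ENNReal.ofReal_pow (Real.exp_pos _).le,
    ← Real.exp_nat_mul]
  congr 2
  ring

/-- A frustrated slab contains a common constant slice of any two locally optimal configurations. -/
theorem Tr2_common {s t : I → V} {ε : V → ℝ} (hε : AltS s t ε) {J : ℤ × (V ⊕ I) → ℝ} {z : ℤ}
    {L : ℕ} {x1 y2 δ : ℝ} (hx1 : 0 < x1) (hxy : x1 < y2) (hδ0 : 0 ≤ δ)
    (hT : Tr2 ε x1 y2 δ L J z)
    (hδ : 4 * δ * Fintype.card V * (2 * L + 1) ≤ x1) {h j : ℕ}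
    (hh : 16 * (x1 / (y2 - x1)) ≤ h) (hpos : 0 < h) (hj : 4 * Fintype.card I ≤ 2 ^ j)
    (hL : (2 * h + 2) * j ≤ 2 * L + 1)
    {σ τ : ℤ × V → ℝ} (hσ : GrOn s t J σ (z - L) (z + L + 1))
    (hτ : GrOn s t J τ (z - L) (z + L + 1)) :
    ∃ n, z - L ≤ n ∧ n ≤ z + L + 1 ∧ ∀ i, σ (n, s i) = σ (n, t i) ∧ τ (n, s i) = τ (n, t i) := by
  refine common hε hx1 hxy hδ0 (δ := δ) (h := h) (j := j) ?_ ?_ ?_ hh hpos hj ?_ hσ hτ
  · intro n h1 h2 y
    have := hT (n, Sum.inl y) (by simp [TH761.EA.blk]; omega)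
    have h3 : J (n, Sum.inl y) ∈ Set.Icc (ε y * x1 - δ) (ε y * x1 + δ) := this
    rw [abs_le]
    constructor <;> linarith [h3.1, h3.2]
  · intro n h1 h2 i
    have := hT (n, Sum.inr i) (by simp [TH761.EA.blk]; omega)
    exact this
  · refine le_trans (le_of_eq ?_) hδ
    push_cast; ring
  · have : (((2 * h + 2) * j : ℕ) : ℤ) ≤ ((2 * L + 1 : ℕ) : ℤ) := by exact_mod_cast hL
    push_cast at this
    linarith

end Pool.Agent.L5helper86.EA
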